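import Pool.Agent.Work.MP_c6f924_an_laurent.DH3

set_option autoImplicit false

/-!
Douady-Hubbard, part 4: the limit, the Riemann map of the complement of the Mandelbrot set.
-/

namespace Pool.Agent.Work.MP_c6f924_an_laurent

open Pool.Agent.Work.MP_c6f924_an
open Set Filter Metric Topology Bornology

lemma norm_P_add_le' {c : ℂ} {K : ℝ} (hK : 2 ≤ K) (hc : ‖c‖ ≤ K) (n k : ℕ) :
    ‖P (n + k) c‖ + K ≤ (‖P n c‖ + K) ^ 2 ^ k := by
  induction k with
  | zero => simp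
  | succ k ih =>
    have h1 := norm_P_succ_le (n + k) c
    have h2 : (‖P (n + k) c‖ + K) ^ 2 ≤ ((‖P n c‖ + K) ^ 2 ^ k) ^ 2 :=
      pow_le_pow_left₀ (by positivity) ih 2
    rw [← pow_mul, ← pow_succ] at h2
    have e : n + (k + 1) = n + k + 1 := by ring
    rw [e]
    nlinarith [norm_nonneg (P (n + k) c)]

lemma U_mono {m n : ℕ} (h : m ≤ n) : U m ⊆ U n := by
  intro c hc
  by_contra hcon
  have h1 : ‖P (n + 1) c‖ ≤ 3 := not_lt.1 hcon
  have h2 := norm_P_le_three_of_le (show m + 1 ≤ n + 1 by omega) h1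
  have h3 : 3 < ‖P (m + 1) c‖ := hc
  linarith

lemma exists_mem_U {c : ℂ} (hc : c ∉ M) : ∃ n, c ∈ U n := by
  by_contra hcon
  push Not at hcon
  apply hc
  apply mem_M_of_forall_le_three
  intro n
  cases n with
  | zero => rw [P_zero, norm_zero]; norm_num
  | succ n => exact not_lt.1 (hcon n)

/-- lower growth from `U n` -/
lemma two_pow_le {N : ℕ} {c : ℂ} (hc : c ∈ U N) (j : ℕ) :
    (2 : ℝ) ^ 2 ^ j ≤ ‖P (N + j + 1) c‖ - 1 := by
  induction j with
  | zero =>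
    have h1 : 3 < ‖P (N + 1) c‖ := hc
    simp only [add_zero, pow_zero, pow_one]
    linarith
  | succ j ih =>
    have h1 : (2 : ℝ) ≤ 2 ^ 2 ^ j := by
      calc (2 : ℝ) = 2 ^ 1 := by norm_num
        _ ≤ 2 ^ 2 ^ j := pow_le_pow_right₀ (by norm_num) Nat.one_le_two_pow
    have hcp : ‖c‖ ≤ ‖P (N + j + 1) c‖ := by
      by_cases hc2 : 2 ≤ ‖c‖
      · exact norm_P_ge_of_large hc2 _
      · push Not at hc2; linarith
    have h2 := norm_P_succ_ge (N + j + 1) c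
    have e : N + (j + 1) + 1 = N + j + 1 + 1 := by ring
    rw [e, pow_succ, pow_mul]
    have h3 : ((2 : ℝ) ^ 2 ^ j) ^ 2 ≤ (‖P (N + j + 1) c‖ - 1) ^ 2 :=
      pow_le_pow_left₀ (by positivity) ih 2
    nlinarith

lemma eventually_three_mul_pow {R : ℝ} (hR0 : 0 ≤ R) (hR1 : R < 1) :
    ∀ᶠ n : ℕ in atTop, 3 * R ^ 2 ^ n < 1 := by
  have h1 : Tendsto (fun n : ℕ => R ^ 2 ^ n) atTop (𝓝 0) :=
    (tendsto_pow_atTop_nhds_zero_of_lt_one hR0 hR1).comp
      (tendsto_pow_atTop_atTop_of_one_lt (by norm_num : (1 : ℕ) < 2))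
  have h2 := h1.const_mul 3
  rw [mul_zero] at h2
  exact h2.eventually_lt_const one_pos

lemma ultra_limit {f : ℕ → ℂ} {𝒰 : Ultrafilter ℕ} {B : ℝ} (h : ∀ᶠ n in (𝒰 : Filter ℕ), ‖f n‖ ≤ B) :
    ∃ x : ℂ, Tendsto f 𝒰 (𝓝 x) := by
  obtain ⟨x, -, hx⟩ := (isCompact_closedBall (0 : ℂ) B).ultrafilter_le_nhds' (𝒰.map f) (by
    rw [Ultrafilter.mem_map]
    filter_upwards [h] with n hn
    show f n ∈ closedBall 0 B
    rwa [mem_closedBall_zero_iff])
  exact ⟨x, hx⟩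

theorem douady_hubbard : ∃ (ψ : ℂ → ℂ) (b : ℕ → ℂ), Laurent ψ b ∧
    BijOn ψ {z | 1 < ‖z‖} Mᶜ := by
  choose Φ ψ b hΦ hmaps hψU hψΦ hΦψ hP hψP hsum hb using approx
  set 𝒰 : Ultrafilter ℕ := hyperfilter ℕ with h𝒰
  have hle : (𝒰 : Filter ℕ) ≤ atTop := Nat.hyperfilter_le_atTop
  have hlim : ∀ m, ∃ x : ℂ, Tendsto (fun n => b n m) 𝒰 (𝓝 x) := by
    intro m
    apply ultra_limit (B := (2 / (1 / 2) + 2) / (1 / 2) ^ m)
    have h1 := (eventually_three_mul_pow (R := 1 / 2) (by norm_num) (by norm_num)).filter_mono hle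
    filter_upwards [h1] with n hn
    exact hb n (1 / 2) (by norm_num) hn m
  choose β hβ using hlim
  have hβb : ∀ R : ℝ, 0 < R → R < 1 → ∀ m, ‖β m‖ ≤ (2 / R + 2) / R ^ m := by
    intro R hR0 hR1 m
    refine le_of_tendsto (hβ m).norm ?_
    filter_upwards [(eventually_three_mul_pow hR0.le hR1).filter_mono hle] with n hn
    exact hb n R hR0 hn m
  have hsummable : ∀ z : ℂ, 1 < ‖z‖ → Summable (fun m : ℕ => β m * z⁻¹ ^ m) := by
    intro z hz
    have hz1 : ‖z⁻¹‖ < 1 := by rw [norm_inv]; exact inv_lt_one_of_one_lt₀ hz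
    obtain ⟨R, hRz, hR1⟩ := exists_between hz1
    have hR0 : 0 < R := (norm_nonneg _).trans_lt hRz
    have hq : ‖z⁻¹‖ / R < 1 := (div_lt_one hR0).2 hRz
    refine Summable.of_norm_bounded
      ((summable_geometric_of_lt_one (by positivity) hq).mul_left (2 / R + 2)) fun m => ?_
    rw [norm_mul, norm_pow]
    calc ‖β m‖ * ‖z⁻¹‖ ^ m ≤ (2 / R + 2) / R ^ m * ‖z⁻¹‖ ^ m := by
          gcongr
          exact hβb R hR0 hR1 m
      _ = (2 / R + 2) * (‖z⁻¹‖ / R) ^ m := by rw [div_pow]; ring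
  set Ψ : ℂ → ℂ := fun z => z + ∑' m : ℕ, β m * z⁻¹ ^ m with hΨ
  have hLaurent : Laurent Ψ β := by
    intro z hz
    have h1 : Ψ z - z = ∑' m : ℕ, β m * z⁻¹ ^ m := by simp [hΨ]
    rw [h1]
    exact (hsummable z hz).hasSum
  have hinD : ∀ (z : ℕ → ℂ) (z₀ : ℂ), 1 < ‖z₀‖ → Tendsto z 𝒰 (𝓝 z₀) →
      ∃ r R : ℝ, 0 < r ∧ r < R ∧ R < 1 ∧ ∀ᶠ n in (𝒰 : Filter ℕ), z n ≠ 0 ∧ ‖(z n)⁻¹‖ ≤ r ∧
        3 * R ^ 2 ^ n < 1 ∧ (z n)⁻¹ ∈ D n := by
    intro z z₀ hz₀ hz
    have hz₀0 : z₀ ≠ 0 := by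
      rw [← norm_pos_iff]; linarith
    have hz1 : ‖z₀⁻¹‖ < 1 := by rw [norm_inv]; exact inv_lt_one_of_one_lt₀ hz₀
    obtain ⟨r, hrz, hr1⟩ := exists_between hz1
    obtain ⟨R, hrR, hR1⟩ := exists_between hr1
    have hr0 : 0 < r := (norm_nonneg _).trans_lt hrz
    have hR0 : 0 < R := hr0.trans hrR
    refine ⟨r, R, hr0, hrR, hR1, ?_⟩
    have h1 : ∀ᶠ n in (𝒰 : Filter ℕ), ‖(z n)⁻¹‖ < r :=
      ((hz.inv₀ hz₀0).norm).eventually_lt_const hrz
    have h2 : ∀ᶠ n in (𝒰 : Filter ℕ), z n ≠ 0 := hz.eventually_ne hz₀0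
    filter_upwards [h1, h2, (eventually_three_mul_pow hR0.le hR1).filter_mono hle] with n hn1 hn2 hn3
    refine ⟨hn2, hn1.le, hn3, ?_⟩
    show 3 * ‖(z n)⁻¹‖ ^ 2 ^ n < 1
    have : ‖(z n)⁻¹‖ ^ 2 ^ n ≤ R ^ 2 ^ n := pow_le_pow_left₀ (norm_nonneg _) (hn1.le.trans hrR.le) _
    linarith
  have hT : ∀ (z : ℕ → ℂ) (z₀ : ℂ), 1 < ‖z₀‖ → Tendsto z 𝒰 (𝓝 z₀) →
      Tendsto (fun n => ψ n (z n)) 𝒰 (𝓝 (Ψ z₀)) := by
    intro z z₀ hz₀ hz
    have hz₀0 : z₀ ≠ 0 := by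
      rw [← norm_pos_iff]; linarith
    obtain ⟨r, R, hr0, hrR, hR1, hev⟩ := hinD z z₀ hz₀ hz
    have hR0 : 0 < R := hr0.trans hrR
    have h1 : Tendsto (fun n => z n + ∑' m : ℕ, b n m * (z n)⁻¹ ^ m) 𝒰 (𝓝 (Ψ z₀)) := by
      apply hz.add
      apply tendsto_tsum_of_dominated_convergence (bound := fun m => (2 / R + 2) * (r / R) ^ m)
      · exact (summable_geometric_of_lt_one (by positivity) ((div_lt_one hR0).2 hrR)).mul_left _
      · intro m
        exact (hβ m).mul ((hz.inv₀ hz₀0).pow m)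
      · filter_upwards [hev] with n hn m
        rw [norm_mul, norm_pow]
        calc ‖b n m‖ * ‖(z n)⁻¹‖ ^ m ≤ (2 / R + 2) / R ^ m * r ^ m := by
              gcongr
              · exact hb n R hR0 hn.2.2.1 m
              · exact hn.2.1
          _ = (2 / R + 2) * (r / R) ^ m := by rw [div_pow]; ring
    refine h1.congr' ?_
    filter_upwards [hev] with n hn
    have h2 := hsum n _ hn.2.2.2 (inv_ne_zero hn.1)
    rw [inv_inv] at h2
    rw [h2.tsum_eq]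
    ring
  have hV : ∀ z : ℂ, 1 < ‖z‖ → ∀ᶠ n in (𝒰 : Filter ℕ), z ∈ V n := by
    intro z hz
    obtain ⟨r, R, -, -, -, hev⟩ := hinD (fun _ => z) z hz tendsto_const_nhds
    filter_upwards [hev] with n hn
    have := inv_mem_V hn.2.2.2 (inv_ne_zero hn.1)
    rwa [inv_inv] at this
  -- maps into the complement
  have hmapsTo : MapsTo Ψ {z | 1 < ‖z‖} Mᶜ := by
    intro z hz
    have hz' : 1 < ‖z‖ := hz
    have h1 := hT (fun _ => z) z hz' tendsto_const_nhds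
    obtain ⟨k, hk⟩ : ∃ k : ℕ, 6 < ‖z‖ ^ 2 ^ k := by
      have h2 : Tendsto (fun k : ℕ => ‖z‖ ^ 2 ^ k) atTop atTop :=
        (tendsto_pow_atTop_atTop_of_one_lt hz').comp
          (tendsto_pow_atTop_atTop_of_one_lt (by norm_num : (1 : ℕ) < 2))
      exact (h2.eventually_gt_atTop 6).exists
    have h3 : ∀ᶠ n in (𝒰 : Filter ℕ), 3 ≤ ‖P (k + 1) (ψ n z)‖ := by
      filter_upwards [hV z hz', (eventually_ge_atTop k).filter_mono hle] with n hn hkn
      by_contra hcon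
      push Not at hcon
      have h4 : ‖ψ n z‖ ≤ 3 := norm_le_of_norm_P_le (by norm_num) hcon.le
      obtain ⟨j, rfl⟩ := Nat.exists_eq_add_of_le hkn
      have h5 := norm_P_add_le' (K := 3) (by norm_num) h4 (k + 1) j
      have e : k + 1 + j = k + j + 1 := by ring
      rw [e, hψP _ _ hn, norm_pow] at h5
      have h6 : (‖P (k + 1) (ψ (k + j) z)‖ + 3) ^ 2 ^ j ≤ 6 ^ 2 ^ j :=
        pow_le_pow_left₀ (by positivity) (by linarith) _
      have h7 : (‖z‖ ^ 2 ^ k) ^ 2 ^ j ≤ 6 ^ 2 ^ j := by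
        rw [← pow_mul, ← pow_add]
        linarith
      have h8 := le_of_pow_le_pow_left₀ (show (2 ^ j : ℕ) ≠ 0 by positivity) (by norm_num) h7
      linarith
    have h4 : 3 ≤ ‖P (k + 1) (Ψ z)‖ :=
      ge_of_tendsto (((continuous_P (k + 1)).tendsto _).comp h1).norm h3
    intro hM
    have h5 := (mem_M_iff_le _).1 hM (k + 1)
    linarith
  refine ⟨Ψ, β, hLaurent, hmapsTo, ?_, ?_⟩
  · -- injectivity
    intro z hz z' hz' heq
    have hz1 : 1 < ‖z‖ := hz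
    have hz1' : 1 < ‖z'‖ := hz'
    have h1 := hT (fun _ => z) z hz1 tendsto_const_nhds
    have h1' := hT (fun _ => z') z' hz1' tendsto_const_nhds
    rw [← heq] at h1'
    set c : ℂ := Ψ z with hc
    have hcM : c ∉ M := hmapsTo hz
    obtain ⟨N, hN⟩ := exists_mem_U hcM
    obtain ⟨r, hr0, hr⟩ := Metric.isOpen_iff.1 (isOpen_U N) c hN
    set K : ℝ := ‖c‖ + r + 2 with hK
    have hbound : ∀ n, N ≤ n → ∀ x ∈ ball c r, ‖Φ n x‖ ≤ 2 * K := by
      intro n hn x hx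
      have hxU : x ∈ U n := U_mono hn (hr hx)
      have hxK : ‖x‖ ≤ K := by
        rw [mem_ball, dist_eq_norm] at hx
        have := norm_sub_norm_le x c
        rw [hK]; linarith
      have h2 := norm_P_add_le' (K := K) (by rw [hK]; linarith [norm_nonneg c]) hxK 1 n
      rw [P_one, add_comm 1 n, ← hP n x hxU, norm_pow] at h2
      have hK0 : 0 ≤ K := by rw [hK]; positivity
      have h3 : (‖x‖ + K) ^ 2 ^ n ≤ (2 * K) ^ 2 ^ n :=
        pow_le_pow_left₀ (by positivity) (by linarith) _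
      have h4 : ‖Φ n x‖ ^ 2 ^ n ≤ (2 * K) ^ 2 ^ n := by linarith
      exact le_of_pow_le_pow_left₀ (by positivity) (by positivity) h4
    have hlip : ∀ n, N ≤ n → ∀ x ∈ ball c r, dist (Φ n x) (Φ n c) ≤ (4 * K) / r * dist x c := by
      intro n hn x hx
      apply Complex.dist_le_div_mul_dist_of_mapsTo_ball
        ((hΦ n).mono (fun y hy => U_mono hn (hr hy))) _ hx
      intro y hy
      rw [mem_closedBall, dist_eq_norm]
      have h2 := norm_sub_le (Φ n y) (Φ n c)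
      have h3 := hbound n hn y hy
      have h4 := hbound n hn c (mem_ball_self hr0)
      linarith
    have key : ∀ y : ℂ, 1 < ‖y‖ → Tendsto (fun n => ψ n y) 𝒰 (𝓝 c) →
        Tendsto (fun n => Φ n c) 𝒰 (𝓝 y) := by
      intro y hy hty
      rw [tendsto_iff_dist_tendsto_zero] at hty ⊢
      have h5 := hty.const_mul ((4 * K) / r)
      rw [mul_zero] at h5
      refine squeeze_zero' (Eventually.of_forall fun n => dist_nonneg) ?_ h5
      have h6 : ∀ᶠ n in (𝒰 : Filter ℕ), ψ n y ∈ ball c r := by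
        have := hty.eventually_lt_const hr0
        filter_upwards [this] with n hn
        exact hn
      filter_upwards [h6, hV y hy, (eventually_ge_atTop N).filter_mono hle] with n hn1 hn2 hn3
      have h7 := hlip n hn3 _ hn1
      rw [hΦψ n y hn2, dist_comm] at h7
      exact h7
    exact tendsto_nhds_unique (key z hz1 h1) (key z' hz1' h1')
  · -- surjectivity
    intro c hcM
    obtain ⟨N, hN⟩ := exists_mem_U hcM
    have hcU : ∀ n, N ≤ n → c ∈ U n := fun n hn => U_mono hn hN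
    set K : ℝ := ‖c‖ + 2 with hK
    have hbound : ∀ᶠ n in (𝒰 : Filter ℕ), ‖Φ n c‖ ≤ 2 * K := by
      filter_upwards [(eventually_ge_atTop N).filter_mono hle] with n hn
      have h2 := norm_P_add_le' (K := K) (c := c) (by rw [hK]; linarith [norm_nonneg c])
        (by rw [hK]; linarith) 1 n
      rw [P_one, add_comm 1 n, ← hP n c (hcU n hn), norm_pow] at h2
      have hK0 : 0 ≤ K := by rw [hK]; positivity
      have h3 : (‖c‖ + K) ^ 2 ^ n ≤ (2 * K) ^ 2 ^ n :=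
        pow_le_pow_left₀ (by positivity) (by rw [hK]; linarith) _
      have h4 : ‖Φ n c‖ ^ 2 ^ n ≤ (2 * K) ^ 2 ^ n := by linarith
      exact le_of_pow_le_pow_left₀ (by positivity) (by positivity) h4
    obtain ⟨z, hz⟩ := ultra_limit hbound
    have hlow : ∀ᶠ n in (𝒰 : Filter ℕ), 2 ≤ ‖Φ n c‖ ^ 2 ^ N := by
      filter_upwards [(eventually_ge_atTop N).filter_mono hle] with n hn
      obtain ⟨j, rfl⟩ := Nat.exists_eq_add_of_le hn
      have h2 := two_pow_le hN j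
      rw [← hP _ c (hcU _ hn), norm_pow] at h2
      have h3 : (2 : ℝ) ^ 2 ^ j ≤ (‖Φ (N + j) c‖ ^ 2 ^ N) ^ 2 ^ j := by
        rw [← pow_mul, ← pow_add]
        linarith
      exact le_of_pow_le_pow_left₀ (by positivity) (by positivity) h3
    have hz1 : 1 < ‖z‖ := by
      have h2 : 2 ≤ ‖z‖ ^ 2 ^ N := ge_of_tendsto (hz.norm.pow _) hlow
      by_contra hcon
      push Not at hcon
      have h3 : ‖z‖ ^ 2 ^ N ≤ 1 := pow_le_one₀ (norm_nonneg _) hcon
      linarith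
    refine ⟨z, hz1, ?_⟩
    have h2 := hT _ z hz1 hz
    have h3 : Tendsto (fun n => ψ n (Φ n c)) 𝒰 (𝓝 c) := by
      apply tendsto_const_nhds.congr'
      filter_upwards [(eventually_ge_atTop N).filter_mono hle] with n hn
      exact (hψΦ n c (hcU n hn)).symm
    exact tendsto_nhds_unique h2 h3

end Pool.Agent.Work.MP_c6f924_an_laurent
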