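import Mathlib

set_option autoImplicit false

/-!
A quantitative maximum principle from the Poisson formula on the unit disc.
-/

namespace Pool.Agent.Work.MP_c6f924_an_laurent

open Set Filter Metric Topology Real

lemma norm_circleAverage_le {h : ℂ → ℂ} {c : ℂ} {R : ℝ} :
    ‖circleAverage h c R‖ ≤ circleAverage (fun z => ‖h z‖) c R := by
  rw [circleAverage, circleAverage, norm_smul, smul_eq_mul, Real.norm_eq_abs,
    abs_of_pos (inv_pos.2 two_pi_pos)]
  gcongr
  exact intervalIntegral.norm_integral_le_integral_norm two_pi_pos.le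

lemma continuousOn_poisson {w : ℂ} (hw : w ∈ ball (0 : ℂ) 1) :
    ContinuousOn (poissonKernel 0 w) (sphere 0 |1|) := by
  have : poissonKernel 0 w = fun z => (‖z - 0‖ ^ 2 - ‖w - 0‖ ^ 2) / ‖(z - 0) - (w - 0)‖ ^ 2 := by
    funext z; rw [poissonKernel_def]
  rw [this]
  apply ContinuousOn.div (by fun_prop) (by fun_prop)
  intro z hz h0
  rw [abs_one, mem_sphere_zero_iff_norm] at hz
  rw [mem_ball_zero_iff] at hw
  have h1 : z - 0 - (w - 0) = 0 := by
    rw [← norm_eq_zero]; exact pow_eq_zero_iff (two_ne_zero) |>.1 h0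
  have h2 : z = w := by linear_combination h1
  rw [h2] at hz
  linarith

lemma circleAverage_poisson {w : ℂ} (hw : w ∈ ball (0 : ℂ) 1) :
    circleAverage (poissonKernel 0 w) 0 1 = 1 := by
  have h1 : DiffContOnCl ℂ (fun _ : ℂ => (1 : ℂ)) (ball 0 1) := diffContOnCl_const
  have h2 := h1.circleAverage_poissonKernel_smul hw
  have hint : CircleIntegrable (poissonKernel 0 w • fun _ : ℂ => (1 : ℂ)) 0 1 := by
    apply ContinuousOn.circleIntegrable'
    exact (continuousOn_poisson hw).smul continuousOn_const
  have h3 := Complex.reCLM.circleAverage_comp_comm hint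
  rw [h2] at h3
  have h4 : (Complex.reCLM ∘ (poissonKernel 0 w • fun _ : ℂ => (1 : ℂ))) = poissonKernel 0 w := by
    funext z
    simp
  rw [h4] at h3
  simpa using h3

lemma poisson_bound {f : ℂ → ℂ} (hf : DiffContOnCl ℂ f (ball 0 1)) {w a : ℂ}
    (hw : w ∈ ball (0 : ℂ) 1) {A B : ℝ}
    (h : ∀ ζ ∈ sphere (0 : ℂ) 1,
      poissonKernel 0 w ζ * ‖f ζ - a‖ ≤ poissonKernel 0 w ζ * A + B) :
    ‖f w - a‖ ≤ A + B := by
  have hg : DiffContOnCl ℂ (fun z => f z - a) (ball 0 1) := hf.sub_const a
  have h1 := hg.circleAverage_poissonKernel_smul hw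
  have hcont : ContinuousOn (fun z => f z - a) (sphere 0 |1|) := by
    apply hg.continuousOn.mono
    rw [closure_ball _ one_ne_zero, abs_one]
    exact sphere_subset_closedBall
  have hcP := continuousOn_poisson hw
  have hpos : ∀ ζ ∈ sphere (0 : ℂ) |1|, 0 ≤ poissonKernel 0 w ζ := by
    intro ζ hζ
    rw [abs_one, mem_sphere_zero_iff_norm] at hζ
    rw [mem_ball_zero_iff] at hw
    rw [poissonKernel_def, sub_zero, sub_zero, hζ]
    apply div_nonneg _ (by positivity)
    nlinarith [norm_nonneg w]
  rw [← h1]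
  refine norm_circleAverage_le.trans ?_
  have h2 : circleAverage (fun z => poissonKernel 0 w z * A + B) 0 1 = A + B := by
    rw [circleAverage_fun_add, circleAverage_const]
    · have : (fun z => poissonKernel 0 w z * A) = fun z => A • poissonKernel 0 w z := by
        funext z; rw [smul_eq_mul, mul_comm]
      rw [this, circleAverage_fun_smul, circleAverage_poisson hw]
      simp
    · exact ContinuousOn.circleIntegrable' (hcP.mul continuousOn_const)
    · exact ContinuousOn.circleIntegrable' continuousOn_const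
  rw [← h2]
  apply circleAverage_mono
  · exact ContinuousOn.circleIntegrable' (hcP.smul hcont).norm
  · exact ContinuousOn.circleIntegrable' ((hcP.mul continuousOn_const).add continuousOn_const)
  · intro ζ hζ
    have h3 := hpos ζ hζ
    rw [abs_one] at hζ
    have h4 := h ζ hζ
    simp only [Pi.smul_apply', norm_smul, Real.norm_eq_abs, abs_of_nonneg h3]
    exact h4

end Pool.Agent.Work.MP_c6f924_an_laurent
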