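import Pool.Agent.Work.MP_c6f924_an_laurent.Part1
import Pool.Agent.Work.MP_c6f924_an_laurent.Poisson

set_option autoImplicit false

/-!
Lower bound for the modulus of continuity of the boundary extension.
-/

namespace Pool.Agent.Work.MP_c6f924_an_laurent

open Pool.Agent.Work.MP_c6f924_an
open Set Filter Metric Topology Bornology

variable {ψ Ψ : ℂ → ℂ} {b : ℕ → ℂ}

lemma differentiableOn_psi (h : Laurent ψ b) : DifferentiableOn ℂ ψ {z | 1 < ‖z‖} := by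
  have h1 : DifferentiableOn ℂ (fun z : ℂ => z + F b z⁻¹) {z | 1 < ‖z‖} := by
    apply differentiableOn_id.add
    apply (differentiableOn_F h).comp
    · intro z hz
      apply (differentiableAt_inv _).differentiableWithinAt
      rintro rfl
      have : (1 : ℝ) < ‖(0 : ℂ)‖ := hz
      rw [norm_zero] at this
      linarith
    · intro z hz
      rw [mem_ball_zero_iff, norm_inv]
      exact inv_lt_one_of_one_lt₀ hz
  refine h1.congr fun z hz => ?_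
  exact psi_eq h hz

/-- Boundary values lie in `M`. -/
lemma boundary_mem (h : Laurent ψ b) (hinj : InjOn ψ {z | 1 < ‖z‖})
    (hsurj : Mᶜ ⊆ ψ '' {z | 1 < ‖z‖})
    (hΨ : ContinuousOn Ψ {z | 1 ≤ ‖z‖}) (heq : ∀ z, 1 < ‖z‖ → Ψ z = ψ z) {u : ℂ} (hu : ‖u‖ = 1) :
    Ψ u ∈ M := by
  by_contra hc
  obtain ⟨z₀, hz₀, hz₀c⟩ := hsurj hc
  have hz₀' : 1 < ‖z₀‖ := hz₀
  set r : ℝ := (‖z₀‖ - 1) / 2 with hr
  have hr0 : 0 < r := by rw [hr]; linarith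
  have hball : ∀ z ∈ ball z₀ r, 1 + r < ‖z‖ := by
    intro z hz
    rw [mem_ball, dist_eq_norm] at hz
    have := norm_sub_norm_le z₀ z
    rw [norm_sub_rev] at this
    rw [hr] at hz ⊢
    linarith
  have hsub : ball z₀ r ⊆ {z | 1 < ‖z‖} := fun z hz => by
    have := hball z hz
    show 1 < ‖z‖
    linarith
  have han : AnalyticOnNhd ℂ ψ (ball z₀ r) :=
    ((differentiableOn_psi h).mono hsub).analyticOnNhd isOpen_ball
  have hopen : IsOpen (ψ '' ball z₀ r) := by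
    rcases han.is_constant_or_isOpen (convex_ball z₀ r).isPreconnected with h1 | h1
    · exfalso
      obtain ⟨w, hw⟩ := h1
      have e1 := hw z₀ (mem_ball_self hr0)
      have hm : z₀ + (r / 2 : ℝ) ∈ ball z₀ r := by
        rw [mem_ball, dist_eq_norm, add_sub_cancel_left, Complex.norm_real, Real.norm_eq_abs,
          abs_of_pos (by positivity)]
        linarith
      have e2 := hw _ hm
      have e3 := hinj (hsub hm) hz₀ (e2.trans e1.symm)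
      have e4 : ((r / 2 : ℝ) : ℂ) = 0 := by linear_combination e3
      have e5 : r / 2 = 0 := by exact_mod_cast e4
      linarith
    · exact h1 _ Subset.rfl isOpen_ball
  have hnhds : ψ '' ball z₀ r ∈ 𝓝 (Ψ u) := by
    rw [← hz₀c]
    exact hopen.mem_nhds ⟨z₀, mem_ball_self hr0, rfl⟩
  have hcont : ContinuousWithinAt Ψ {z | 1 ≤ ‖z‖} u := hΨ u hu.ge
  have htend : Tendsto (fun ε : ℝ => ((1 + ε : ℝ) : ℂ) * u) (𝓝[>] 0) (𝓝[{z | 1 ≤ ‖z‖}] u) := by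
    apply tendsto_nhdsWithin_iff.2
    constructor
    · have : Tendsto (fun ε : ℝ => ((1 + ε : ℝ) : ℂ) * u) (𝓝 0) (𝓝 (((1 + 0 : ℝ) : ℂ) * u)) := by
        apply Continuous.tendsto
        fun_prop
      simp only [add_zero, Complex.ofReal_one, one_mul] at this
      exact this.mono_left nhdsWithin_le_nhds
    · filter_upwards [self_mem_nhdsWithin] with ε hε
      have hε' : 0 < ε := hε
      show 1 ≤ ‖_‖
      rw [norm_mul, hu, mul_one, Complex.norm_real, Real.norm_eq_abs, abs_of_pos (by linarith)]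
      linarith
  have hev := (hcont.tendsto.comp htend) hnhds
  have hev2 : Ioo (0 : ℝ) r ∈ 𝓝[>] (0 : ℝ) := Ioo_mem_nhdsGT hr0
  obtain ⟨ε, hε1, hε2⟩ := (Filter.inter_mem (Filter.mem_map.1 hev) hev2 |> fun h =>
    (Filter.nonempty_of_mem h))
  have hnorm : ‖((1 + ε : ℝ) : ℂ) * u‖ = 1 + ε := by
    rw [norm_mul, hu, mul_one, Complex.norm_real, Real.norm_eq_abs,
      abs_of_pos (by linarith [hε2.1])]
  have hmem : (1 : ℝ) < ‖((1 + ε : ℝ) : ℂ) * u‖ := by rw [hnorm]; linarith [hε2.1]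
  obtain ⟨z', hz', hz'eq⟩ := hε1
  simp only [Function.comp_apply] at hz'eq
  rw [heq _ hmem] at hz'eq
  have e := hinj (hsub hz') hmem hz'eq
  have h2 := hball z' hz'
  rw [e, hnorm] at h2
  linarith [hε2.2]

/-- The function `Ψ (1 / w) - 1 / w` on the closed disc. -/
noncomputable def G (Ψ : ℂ → ℂ) (b : ℕ → ℂ) (w : ℂ) : ℂ :=
  if w = 0 then b 0 else Ψ w⁻¹ - w⁻¹

lemma G_eq_F (h : Laurent ψ b) (heq : ∀ z, 1 < ‖z‖ → Ψ z = ψ z) {w : ℂ} (hw : ‖w‖ < 1) :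
    G Ψ b w = F b w := by
  unfold G
  split_ifs with h0
  · rw [h0, F, tsum_eq_single 0]
    · simp
    · intro m hm
      simp [hm]
  · have h1 : 1 < ‖w⁻¹‖ := by
      rw [norm_inv]
      exact (one_lt_inv₀ (norm_pos_iff.2 h0)).2 hw
    rw [heq _ h1, psi_inv_eq h h0 hw]
    ring

lemma diffContOnCl_G (h : Laurent ψ b) (hΨ : ContinuousOn Ψ {z | 1 ≤ ‖z‖})
    (heq : ∀ z, 1 < ‖z‖ → Ψ z = ψ z) : DiffContOnCl ℂ (G Ψ b) (ball 0 1) := by
  constructor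
  · refine (differentiableOn_F h).congr fun w hw => ?_
    exact G_eq_F h heq (by simpa using hw)
  · rw [closure_ball _ one_ne_zero]
    intro w hw
    rw [mem_closedBall_zero_iff] at hw
    by_cases h0 : ‖w‖ < 1
    · have h1 : ContinuousAt (F b) w :=
        ((differentiableOn_F h).continuousOn).continuousAt
          (isOpen_ball.mem_nhds (by rwa [mem_ball_zero_iff]))
      have h2 : G Ψ b =ᶠ[𝓝 w] F b := by
        filter_upwards [isOpen_ball.mem_nhds (show w ∈ ball (0 : ℂ) 1 by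
          rwa [mem_ball_zero_iff])] with v hv
        exact G_eq_F h heq (by simpa using hv)
      exact (h1.congr h2.symm).continuousWithinAt
    · have hw1 : ‖w‖ = 1 := le_antisymm hw (not_lt.1 h0)
      have hw0 : w ≠ 0 := by
        rw [← norm_pos_iff, hw1]; exact one_pos
      have h3 : ContinuousWithinAt (fun v : ℂ => Ψ v⁻¹ - v⁻¹) (closedBall 0 1 \ {0}) w := by
        have hinv : ContinuousWithinAt (fun v : ℂ => v⁻¹) (closedBall 0 1 \ {0}) w :=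
          (continuousAt_inv₀ hw0).continuousWithinAt
        apply ContinuousWithinAt.sub _ hinv
        apply ContinuousWithinAt.comp (t := {z | 1 ≤ ‖z‖}) _ hinv
        · intro v hv
          have hv0 : 0 < ‖v‖ := norm_pos_iff.2 hv.2
          have hv1 : ‖v‖ ≤ 1 := by simpa using hv.1
          show 1 ≤ ‖v⁻¹‖
          rw [norm_inv]
          exact (one_le_inv₀ hv0).2 hv1
        · apply hΨ
          show 1 ≤ ‖w⁻¹‖
          rw [norm_inv, hw1, inv_one]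
      have h4 : ContinuousWithinAt (G Ψ b) (closedBall 0 1 \ {0}) w := by
        refine h3.congr (fun v hv => ?_) ?_
        · have : v ≠ 0 := hv.2
          simp [G, this]
        · simp [G, hw0]
      have h5 : closedBall (0 : ℂ) 1 \ {0} ∈ 𝓝[closedBall 0 1] w :=
        inter_mem_nhdsWithin _ (isOpen_compl_singleton.mem_nhds hw0)
      exact h4.mono_of_mem_nhdsWithin h5

lemma G_of_ne {w : ℂ} (hw : w ≠ 0) : G Ψ b w = Ψ w⁻¹ - w⁻¹ := by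
  simp [G, hw]

lemma norm_inv_sub_inv {z w : ℂ} (hz : ‖z‖ = 1) (hw : ‖w‖ = 1) : ‖z⁻¹ - w⁻¹‖ = ‖z - w‖ := by
  have hz0 : z ≠ 0 := by rw [← norm_pos_iff, hz]; exact one_pos
  have hw0 : w ≠ 0 := by rw [← norm_pos_iff, hw]; exact one_pos
  have : z⁻¹ - w⁻¹ = (w - z) / (z * w) := by field_simp
  rw [this, norm_div, norm_mul, hz, hw, norm_sub_rev]
  norm_num

lemma poisson_small {t : ℝ} (ht : 0 < t) (ht2 : t ≤ 1 / 2) {v ζ : ℂ} (hv : ‖v‖ = 1)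
    (hζ : ‖ζ‖ = 1) (hfar : t < ‖ζ - v‖) :
    poissonKernel 0 (((1 + t ^ 3)⁻¹ : ℝ) * v) ζ ≤ 8 * t := by
  have hs : 0 < t ^ 3 := by positivity
  have hs4 : t ^ 3 ≤ t / 4 := by nlinarith [mul_pos ht ht]
  have hi0 : 0 < (1 + t ^ 3)⁻¹ := by positivity
  have hi1 : 1 - t ^ 3 ≤ (1 + t ^ 3)⁻¹ := by
    rw [← one_div, le_div_iff₀ (by positivity)]
    nlinarith
  have hi2 : (1 + t ^ 3)⁻¹ < 1 := inv_lt_one_of_one_lt₀ (by linarith)
  set q : ℝ := (1 + t ^ 3)⁻¹ with hq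
  have hw : ‖(q : ℂ) * v‖ = q := by
    rw [norm_mul, hv, mul_one, Complex.norm_real, Real.norm_eq_abs, abs_of_pos hi0]
  have h1 : t / 2 ≤ ‖ζ - q * v‖ := by
    have h2 : ‖v - q * v‖ = 1 - q := by
      have : v - q * v = ((1 - q : ℝ) : ℂ) * v := by push_cast; ring
      rw [this, norm_mul, hv, mul_one, Complex.norm_real, Real.norm_eq_abs,
        abs_of_pos (by linarith)]
    have h3 : ζ - q * v = (ζ - v) + (v - q * v) := by ring
    have h4 := norm_sub_norm_le (ζ - v) (-(v - q * v))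
    rw [norm_neg, sub_neg_eq_add, ← h3, h2] at h4
    linarith
  rw [poissonKernel_def, sub_zero, sub_zero, hζ, hw]
  rw [div_le_iff₀ (by
    have : 0 < ‖ζ - q * v‖ := by linarith
    positivity)]
  have h5 : (t / 2) ^ 2 ≤ ‖ζ - q * v‖ ^ 2 := pow_le_pow_left₀ (by positivity) h1 2
  have h6 : (1 : ℝ) ^ 2 - q ^ 2 ≤ 2 * t ^ 3 := by nlinarith
  calc (1 : ℝ) ^ 2 - q ^ 2 ≤ 2 * t ^ 3 := h6
    _ = 8 * t * (t / 2) ^ 2 := by ring
    _ ≤ 8 * t * ‖ζ - q * v‖ ^ 2 := by gcongr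

lemma poisson_nonneg {v ζ : ℂ} (hv : ‖v‖ ≤ 1) (hζ : ‖ζ‖ = 1) : 0 ≤ poissonKernel 0 v ζ := by
  rw [poissonKernel_def, sub_zero, sub_zero, hζ]
  apply div_nonneg _ (by positivity)
  nlinarith [norm_nonneg v]

lemma part4_aux {κ₀ : ℝ} (hB : ∀ (ψ : ℂ → ℂ) (b : ℕ → ℂ), Laurent ψ b →
    (∀ z, 1 < ‖z‖ → ψ z ∉ M) → ∀ z : ℂ, 1 < ‖z‖ → ‖z‖ ≤ 3 / 2 →
    κ₀ / Real.log (1 / (‖z‖ - 1)) ≤ ‖ψ z + 3 / 4‖) (h : Laurent ψ b)
    (hmap : ∀ z, 1 < ‖z‖ → ψ z ∉ M) (hinj : InjOn ψ {z | 1 < ‖z‖})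
    (hsurj : Mᶜ ⊆ ψ '' {z | 1 < ‖z‖})
    (hΨ : ContinuousOn Ψ {z | 1 ≤ ‖z‖}) (heq : ∀ z, 1 < ‖z‖ → Ψ z = ψ z)
    {t η : ℝ} (ht : 0 < t) (ht2 : t ≤ 1 / 2) (hη0 : 0 ≤ η)
    (hη : ∀ z w : ℂ, ‖z‖ = 1 → ‖w‖ = 1 → ‖z - w‖ ≤ t → ‖Ψ z - Ψ w‖ ≤ η) :
    κ₀ / 3 / Real.log (1 / t) ≤ η + 50 * t := by
  obtain ⟨u, hu, huΨ⟩ := exists_boundary h hmap hsurj hΨ heq
  have hu0 : u ≠ 0 := by rw [← norm_pos_iff, hu]; exact one_pos
  have hs : 0 < t ^ 3 := by positivity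
  have hs4 : t ^ 3 ≤ t / 4 := by nlinarith [mul_pos ht ht]
  set v : ℂ := u⁻¹ with hvdef
  have hv : ‖v‖ = 1 := by rw [hvdef, norm_inv, hu, inv_one]
  have hv0 : v ≠ 0 := inv_ne_zero hu0
  have hvi : v⁻¹ = u := by rw [hvdef, inv_inv]
  set w : ℂ := ((1 + t ^ 3)⁻¹ : ℝ) * v with hwdef
  have hq0 : 0 < (1 + t ^ 3)⁻¹ := by positivity
  have hq1 : (1 + t ^ 3)⁻¹ < 1 := inv_lt_one_of_one_lt₀ (by linarith)
  have hwn : ‖w‖ = (1 + t ^ 3)⁻¹ := by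
    rw [hwdef, norm_mul, hv, mul_one, Complex.norm_real, Real.norm_eq_abs, abs_of_pos hq0]
  have hw0 : w ≠ 0 := by rw [← norm_pos_iff, hwn]; exact hq0
  have hwball : w ∈ ball (0 : ℂ) 1 := by rw [mem_ball_zero_iff, hwn]; exact hq1
  have hbd2 : ∀ z : ℂ, ‖z‖ = 1 → ‖Ψ z‖ ≤ 2 := fun z hz =>
    norm_le_of_mem_M (boundary_mem h hinj hsurj hΨ heq hz)
  have hmain : ‖G Ψ b w - G Ψ b v‖ ≤ (η + t) + 48 * t := by
    apply poisson_bound (diffContOnCl_G h hΨ heq) hwball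
    intro ζ hζ
    rw [mem_sphere_zero_iff_norm] at hζ
    have hζ0 : ζ ≠ 0 := by rw [← norm_pos_iff, hζ]; exact one_pos
    have hP : 0 ≤ poissonKernel 0 w ζ := poisson_nonneg (by rw [hwn]; exact hq1.le) hζ
    have hζi : ‖ζ⁻¹‖ = 1 := by rw [norm_inv, hζ, inv_one]
    have e1 : G Ψ b ζ - G Ψ b v = (Ψ ζ⁻¹ - Ψ v⁻¹) - (ζ⁻¹ - v⁻¹) := by
      rw [G_of_ne hζ0, G_of_ne hv0]; ring
    have e2 : ‖G Ψ b ζ - G Ψ b v‖ ≤ ‖Ψ ζ⁻¹ - Ψ v⁻¹‖ + ‖ζ - v‖ := by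
      rw [e1, ← norm_inv_sub_inv hζ hv]
      exact norm_sub_le _ _
    have hvi1 : ‖v⁻¹‖ = 1 := by rw [norm_inv, hv, inv_one]
    by_cases hnear : ‖ζ - v‖ ≤ t
    · have e3 : ‖Ψ ζ⁻¹ - Ψ v⁻¹‖ ≤ η := by
        apply hη _ _ hζi hvi1
        rw [norm_inv_sub_inv hζ hv]
        exact hnear
      calc poissonKernel 0 w ζ * ‖G Ψ b ζ - G Ψ b v‖
          ≤ poissonKernel 0 w ζ * (η + t) := by
            gcongr
            linarith
        _ ≤ poissonKernel 0 w ζ * (η + t) + 48 * t := by linarith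
    · push Not at hnear
      have e4 := poisson_small ht ht2 hv hζ hnear
      rw [← hwdef] at e4
      have e5 : ‖G Ψ b ζ - G Ψ b v‖ ≤ 6 := by
        have h1 := norm_sub_le (Ψ ζ⁻¹) (Ψ v⁻¹)
        have h2 := hbd2 _ hζi
        have h3 := hbd2 _ hvi1
        have h4 := norm_sub_le ζ v
        rw [hζ, hv] at h4
        linarith
      calc poissonKernel 0 w ζ * ‖G Ψ b ζ - G Ψ b v‖
          ≤ (8 * t) * 6 := by gcongr
        _ = 48 * t := by ring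
        _ ≤ poissonKernel 0 w ζ * (η + t) + 48 * t := by
            have : 0 ≤ poissonKernel 0 w ζ * (η + t) := by positivity
            linarith
  -- the point outside
  have hwi : w⁻¹ = ((1 + t ^ 3 : ℝ) : ℂ) * u := by
    rw [hwdef, mul_inv, hvi]
    push_cast
    rw [inv_inv]
  set z : ℂ := ((1 + t ^ 3 : ℝ) : ℂ) * u with hz
  have hzn : ‖z‖ = 1 + t ^ 3 := by
    rw [hz, norm_mul, hu, mul_one, Complex.norm_real, Real.norm_eq_abs, abs_of_pos (by linarith)]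
  have hz1 : 1 < ‖z‖ := by rw [hzn]; linarith
  have hBz := hB ψ b h hmap z hz1 (by rw [hzn]; linarith)
  have e6 : ψ z + 3 / 4 = (G Ψ b w - G Ψ b v) + ((t ^ 3 : ℝ) : ℂ) * u := by
    rw [G_of_ne hw0, G_of_ne hv0, hwi, hvi, huΨ, heq z hz1, hz]
    push_cast
    ring
  have e7 : ‖ψ z + 3 / 4‖ ≤ η + 50 * t := by
    rw [e6]
    refine (norm_add_le _ _).trans ?_
    have : ‖((t ^ 3 : ℝ) : ℂ) * u‖ = t ^ 3 := by
      rw [norm_mul, hu, mul_one, Complex.norm_real, Real.norm_eq_abs, abs_of_pos hs]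
    rw [this]
    linarith
  have e8 : κ₀ / Real.log (1 / (‖z‖ - 1)) = κ₀ / 3 / Real.log (1 / t) := by
    have h1 : ‖z‖ - 1 = t ^ 3 := by rw [hzn]; ring
    have h2 : (1 : ℝ) / t ^ 3 = (1 / t) ^ 3 := by rw [div_pow, one_pow]
    rw [h1, h2, Real.log_pow]
    push_cast
    rw [div_div]
  rw [← e8]
  exact hBz.trans e7

/-- **Part 4.** -/
theorem part4 : ∃ κ : ℝ, 0 < κ ∧ ∀ (ψ : ℂ → ℂ) (b : ℕ → ℂ), Laurent ψ b →
    (∀ z, 1 < ‖z‖ → ψ z ∉ M) → InjOn ψ {z | 1 < ‖z‖} → Mᶜ ⊆ ψ '' {z | 1 < ‖z‖} →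
    ∀ Ψ : ℂ → ℂ, ContinuousOn Ψ {z | 1 ≤ ‖z‖} → (∀ z, 1 < ‖z‖ → Ψ z = ψ z) →
    ∀ t : ℝ, 0 < t → t ≤ 1 / 2 → ∃ z w : ℂ, ‖z‖ = 1 ∧ ‖w‖ = 1 ∧ ‖z - w‖ ≤ t ∧
      κ / Real.log (1 / t) ≤ ‖Ψ z - Ψ w‖ := by
  obtain ⟨κ₀, hκ₀, hB⟩ := thmB
  obtain ⟨κ, hκ, habs⟩ := absorb (κ₀ := κ₀ / 3) (A := 51) (by positivity) (by norm_num)
  refine ⟨κ, hκ, fun ψ b h hmap hinj hsurj Ψ hΨ heq t ht ht2 => ?_⟩
  refine habs (fun t x => ∃ z w : ℂ, ‖z‖ = 1 ∧ ‖w‖ = 1 ∧ ‖z - w‖ ≤ t ∧ x ≤ ‖Ψ z - Ψ w‖) ?_ ?_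
    t ht ht2
  · rintro s t x y _ hst hyx ⟨z, w, hz, hw, hzw, hx⟩
    exact ⟨z, w, hz, hw, hzw.trans hst, hyx.trans hx⟩
  · intro t ht ht2
    by_contra hcon
    push Not at hcon
    have hη0 : 0 ≤ κ₀ / 3 / Real.log (1 / t) - 51 * t := by
      have := hcon 1 1 (by simp) (by simp) (by simpa using ht.le)
      simp only [sub_self, norm_zero] at this
      exact this.le
    have := part4_aux hB h hmap hinj hsurj hΨ heq ht ht2 hη0
      (fun z w hz hw hzw => (hcon z w hz hw hzw).le)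
    linarith

end Pool.Agent.Work.MP_c6f924_an_laurent
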