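import Pool.Agent.Work.MP_c6f924_an_laurent.Ext

set_option autoImplicit false

/-!
Douady-Hubbard, part 1: a continuous `2 ^ n`-th root of `P (n + 1)` on `{c | 3 < ‖P (n + 1) c‖}`.
-/

namespace Pool.Agent.Work.MP_c6f924_an_laurent

open Pool.Agent.Work.MP_c6f924_an
open Set Filter Metric Topology Bornology unitInterval

lemma two_mul_norm_P_le {c : ℂ} {j : ℕ} (h : 3 < ‖P j c‖) : 2 * ‖P j c‖ ≤ ‖P (j + 1) c‖ := by
  cases j with
  | zero =>
    rw [P_zero, norm_zero] at h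
    linarith
  | succ j =>
    have h1 := norm_P_succ_ge (j + 1) c
    have hc : ‖c‖ ≤ ‖P (j + 1) c‖ := by
      by_cases hc : 2 ≤ ‖c‖
      · exact norm_P_ge_of_large hc j
      · linarith
    nlinarith

lemma pow_mul_norm_P_le {c : ℂ} {j : ℕ} (h : 3 < ‖P j c‖) (k : ℕ) :
    2 ^ k * ‖P j c‖ ≤ ‖P (j + k) c‖ := by
  induction k with
  | zero => simp
  | succ k ih =>
    have h1 : (1 : ℝ) ≤ 2 ^ k := one_le_pow₀ (by norm_num)
    have h2 : 3 < ‖P (j + k) c‖ := by nlinarith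
    have h3 := two_mul_norm_P_le h2
    have e : j + (k + 1) = j + k + 1 := by ring
    rw [e, pow_succ]
    linarith

lemma norm_P_lt_of_lt {c : ℂ} {j n : ℕ} (h : 3 < ‖P n c‖) (hj : j < n) : ‖P j c‖ < ‖P n c‖ := by
  by_cases h3 : 3 < ‖P j c‖
  · obtain ⟨k, rfl⟩ := Nat.exists_eq_add_of_lt hj
    have h4 := pow_mul_norm_P_le h3 (k + 1)
    have h5 : (2 : ℝ) ≤ 2 ^ (k + 1) := by
      calc (2 : ℝ) = 2 ^ 1 := by norm_num
        _ ≤ 2 ^ (k + 1) := pow_le_pow_right₀ (by norm_num) (by omega)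
    have e : j + (k + 1) = j + k + 1 := by ring
    rw [e] at h4
    nlinarith
  · push Not at h3
    linarith

/-- The region `{c | 3 < ‖P (n + 1) c‖}`. -/
def U (n : ℕ) : Set ℂ := {c | 3 < ‖P (n + 1) c‖}

lemma isOpen_U (n : ℕ) : IsOpen (U n) := isOpen_lt continuous_const (continuous_P _).norm

lemma not_mem_M_of_mem_U {n : ℕ} {c : ℂ} (hc : c ∈ U n) : c ∉ M := by
  intro h
  have h1 := (mem_M_iff_le c).1 h (n + 1)
  have h2 : 3 < ‖P (n + 1) c‖ := hc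
  linarith

lemma P_ne_zero_of_mem_U {n k : ℕ} {c : ℂ} (hc : c ∈ U n) : P (k + 1) c ≠ 0 := fun h =>
  not_mem_M_of_mem_U hc (mem_M_of_P_eq_zero (by omega) h)

/-- Homogeneous version of the iterates of `z ^ 2 + c`. -/
def H (c : ℂ) : ℕ → ℂ → ℂ → ℂ
  | 0, y, _ => y
  | i + 1, y, s => H c i (y ^ 2 + c * s ^ 2) (s ^ 2)

lemma H_P (c : ℂ) (i : ℕ) : ∀ (j : ℕ) (s : ℂ), H c i (P j c * s) s = s ^ 2 ^ i * P (j + i) c := by
  induction i with
  | zero => intro j s; simp [H, mul_comm]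
  | succ i ih =>
    intro j s
    have e : (P j c * s) ^ 2 + c * s ^ 2 = P (j + 1) c * s ^ 2 := by
      rw [P_succ]; ring
    rw [H, e, ih (j + 1) (s ^ 2), ← pow_mul]
    have e2 : j + 1 + i = j + (i + 1) := by ring
    rw [e2]
    congr 2
    rw [pow_succ]; ring

lemma H_zero_right (c : ℂ) (i : ℕ) : ∀ y : ℂ, H c i y 0 = y ^ 2 ^ i := by
  induction i with
  | zero => intro y; simp [H]
  | succ i ih =>
    intro y
    have e : y ^ 2 + c * 0 ^ 2 = y ^ 2 := by ring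
    rw [H, e, show (0 : ℂ) ^ 2 = 0 by norm_num, ih, ← pow_mul]
    congr 1
    rw [pow_succ]; ring

lemma sqrt_lift {A : Type*} [TopologicalSpace A] (q : C(I × A, {z : ℂ // z ≠ 0}))
    (r : C(A, {z : ℂ // z ≠ 0})) (h0 : ∀ a, (q (0, a) : ℂ) = (r a : ℂ) ^ 2) :
    ∃ x : C(I × A, {z : ℂ // z ≠ 0}), (∀ p, (x p : ℂ) ^ 2 = q p) ∧ ∀ a, x (0, a) = r a := by
  have cov := isCoveringMap_npow (𝕜 := ℂ) 2 (by norm_num)
  have H0 : ∀ a, q (0, a) = (fun x : {x : ℂ // x ≠ 0} ↦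
      (⟨x ^ 2, pow_ne_zero 2 x.2⟩ : {x : ℂ // x ≠ 0})) (r a) := by
    intro a
    apply Subtype.ext
    exact h0 a
  refine ⟨cov.liftHomotopy q r H0, fun p => ?_, fun a => cov.liftHomotopy_zero q r H0 a⟩
  have := congr_fun (cov.liftHomotopy_lifts q r H0) p
  exact congr_arg Subtype.val this

lemma lifts (n : ℕ) : ∀ i k : ℕ, k + i = n → ∃ x : C(I × (U n), {z : ℂ // z ≠ 0}),
    (∀ c, (x (0, c) : ℂ) = P (k + 1) c) ∧
    ∀ p : I × (U n), H p.2 i (x p) (((1 - (p.1 : ℝ) : ℝ) : ℂ) ^ 2 ^ k) = P (n + 1) p.2 := by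
  intro i
  induction i with
  | zero =>
    intro k hk
    have hk' : k = n := by omega
    subst hk'
    refine ⟨⟨fun p => ⟨P (k + 1) p.2, P_ne_zero_of_mem_U p.2.2⟩, ?_⟩, fun c => rfl, fun p => rfl⟩
    apply Continuous.subtype_mk
    exact (continuous_P _).comp (continuous_subtype_val.comp continuous_snd)
  | succ i ih =>
    intro k hk
    obtain ⟨x', hx'0, hx'H⟩ := ih (k + 1) (by omega)
    have hsq : ∀ p : I × (U n), (((1 - (p.1 : ℝ) : ℝ) : ℂ) ^ 2 ^ k) ^ 2 =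
        ((1 - (p.1 : ℝ) : ℝ) : ℂ) ^ 2 ^ (k + 1) := by
      intro p
      rw [← pow_mul, pow_succ]
    have hne : ∀ p : I × (U n),
        (x' p : ℂ) - p.2 * ((((1 - (p.1 : ℝ) : ℝ) : ℂ) ^ 2 ^ k) ^ 2) ≠ 0 := by
      intro p h0
      have h1 : (x' p : ℂ) = P 1 (p.2 : ℂ) * (((1 - (p.1 : ℝ) : ℝ) : ℂ) ^ 2 ^ (k + 1)) := by
        rw [P_one, ← hsq]
        linear_combination h0
      have h2 := hx'H p
      rw [h1, H_P] at h2
      have h3 : 3 < ‖P (n + 1) (p.2 : ℂ)‖ := p.2.2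
      have h4 := norm_P_lt_of_lt h3 (show 1 + i < n + 1 by omega)
      have h5 : ‖((((1 - (p.1 : ℝ) : ℝ) : ℂ) ^ 2 ^ (k + 1)) ^ 2 ^ i)‖ ≤ 1 := by
        rw [norm_pow, norm_pow, Complex.norm_real, Real.norm_eq_abs]
        have h6 : |1 - (p.1 : ℝ)| ≤ 1 := by
          rw [abs_le]
          constructor <;> linarith [p.1.2.1, p.1.2.2]
        exact pow_le_one₀ (by positivity) (pow_le_one₀ (abs_nonneg _) h6)
      rw [← h2, norm_mul] at h4
      nlinarith [norm_nonneg (P (1 + i) (p.2 : ℂ))]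
    obtain ⟨x, hx, hx0⟩ := sqrt_lift
      (⟨fun p => ⟨(x' p : ℂ) - p.2 * ((((1 - (p.1 : ℝ) : ℝ) : ℂ) ^ 2 ^ k) ^ 2), hne p⟩, by
        apply Continuous.subtype_mk
        fun_prop⟩ : C(I × (U n), {z : ℂ // z ≠ 0}))
      (⟨fun c => ⟨P (k + 1) c, P_ne_zero_of_mem_U c.2⟩, by
        apply Continuous.subtype_mk
        exact (continuous_P _).comp continuous_subtype_val⟩ : C(U n, {z : ℂ // z ≠ 0}))
      (by
        intro c
        simp only [ContinuousMap.coe_mk]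
        rw [hx'0 c, P_succ (k + 1)]
        simp)
    refine ⟨x, fun c => ?_, fun p => ?_⟩
    · rw [hx0 c]
      rfl
    · have h1 := hx p
      simp only [ContinuousMap.coe_mk] at h1
      rw [H, h1, hsq, ← hx'H p, sub_add_cancel]

/-- A continuous `2 ^ n`-th root of `P (n + 1)`. -/
theorem exists_root (n : ℕ) : ∃ Φ : ℂ → ℂ, ContinuousOn Φ (U n) ∧
    ∀ c ∈ U n, Φ c ^ 2 ^ n = P (n + 1) c := by
  classical
  obtain ⟨x, -, hx⟩ := lifts n n 0 (by omega)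
  refine ⟨fun c => if h : c ∈ U n then (x (1, ⟨c, h⟩) : ℂ) else 0, ?_, ?_⟩
  · rw [continuousOn_iff_continuous_domRestrict]
    have : (U n).domRestrict (fun c => if h : c ∈ U n then (x (1, ⟨c, h⟩) : ℂ) else 0) =
        fun c : U n => (x (1, c) : ℂ) := by
      funext c
      simp [Set.domRestrict_apply]
    rw [this]
    fun_prop
  · intro c hc
    have h1 := hx (1, ⟨c, hc⟩)
    simp only [Set.Icc.coe_one, sub_self, Complex.ofReal_zero, pow_zero, pow_one] at h1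
    rw [H_zero_right] at h1
    simpa [hc] using h1

end Pool.Agent.Work.MP_c6f924_an_laurent
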