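import Pool.Agent.Work.MP_c6f924_an_laurent.DH1

set_option autoImplicit false

/-!
Douady-Hubbard, part 2: the root is a bijection onto `{ζ | 3 < ‖ζ‖ ^ 2 ^ n}`.
-/

namespace Pool.Agent.Work.MP_c6f924_an_laurent

open Pool.Agent.Work.MP_c6f924_an
open Set Filter Metric Topology Bornology

lemma differentiableAt_of_comp {f g h : ℂ → ℂ} {g' x : ℂ} (hg : HasStrictDerivAt g g' (f x))
    (hg' : g' ≠ 0) (hf : ContinuousAt f x) (hgf : ∀ᶠ y in 𝓝 x, g (f y) = h y)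
    (hh : DifferentiableAt ℂ h x) : DifferentiableAt ℂ f x := by
  have h1 : ∀ᶠ y in 𝓝 x, hg.localInverse g g' (f x) hg' (g (f y)) = f y :=
    hf.eventually (hg.eventually_left_inverse hg')
  have h2 : ∀ᶠ y in 𝓝 x, f y = (hg.localInverse g g' (f x) hg' ∘ h) y := by
    filter_upwards [h1, hgf] with y hy1 hy2
    rw [Function.comp_apply, ← hy2, hy1]
  have h3 : h x = g (f x) := hgf.self_of_nhds.symm
  have h4 : DifferentiableAt ℂ (hg.localInverse g g' (f x) hg') (h x) := by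
    rw [h3]
    exact (hg.to_localInverse hg').hasDerivAt.differentiableAt
  exact (h4.comp x hh).congr_of_eventuallyEq h2

/-- The polynomial `P n`. -/
noncomputable def PP : ℕ → Polynomial ℂ
  | 0 => 0
  | n + 1 => PP n ^ 2 + Polynomial.X

lemma eval_PP (n : ℕ) (c : ℂ) : (PP n).eval c = P n c := by
  induction n with
  | zero => simp [PP, P_zero]
  | succ n ih => simp [PP, P_succ, ih]

lemma PP_monic_natDegree (n : ℕ) : (PP (n + 1)).Monic ∧ (PP (n + 1)).natDegree = 2 ^ n := by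
  induction n with
  | zero => simp [PP, Polynomial.monic_X]
  | succ n ih =>
    have h1 : ((PP (n + 1)) ^ 2).Monic := ih.1.pow 2
    have h2 : ((PP (n + 1)) ^ 2).natDegree = 2 ^ (n + 1) := by
      rw [ih.1.natDegree_pow, ih.2, pow_succ]; ring
    have h3 : (Polynomial.X : Polynomial ℂ).natDegree < ((PP (n + 1)) ^ 2).natDegree := by
      rw [h2, Polynomial.natDegree_X]
      exact Nat.one_lt_two_pow (by omega)
    constructor
    · show (PP (n + 1) ^ 2 + Polynomial.X).Monic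
      exact h1.add_of_left (Polynomial.degree_lt_degree h3)
    · show (PP (n + 1) ^ 2 + Polynomial.X).natDegree = 2 ^ (n + 1)
      rw [Polynomial.natDegree_add_eq_left_of_natDegree_lt h3, h2]

/-- The region `{ζ | 3 < ‖ζ‖ ^ 2 ^ n}`. -/
def V (n : ℕ) : Set ℂ := {ζ | 3 < ‖ζ‖ ^ 2 ^ n}

lemma isOpen_V (n : ℕ) : IsOpen (V n) := isOpen_lt continuous_const (continuous_norm.pow _)

lemma isPreconnected_V (n : ℕ) : IsPreconnected (V n) := by
  have h1 : V n = (fun p : ℝ × ℝ => (p.1 : ℂ) * Complex.exp (p.2 * Complex.I)) ''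
      ({r : ℝ | 0 < r ∧ 3 < r ^ 2 ^ n} ×ˢ univ) := by
    ext ζ
    constructor
    · intro hζ
      have hζ' : 3 < ‖ζ‖ ^ 2 ^ n := hζ
      refine ⟨(‖ζ‖, Complex.arg ζ), ⟨⟨?_, hζ'⟩, mem_univ _⟩, Complex.norm_mul_exp_arg_mul_I ζ⟩
      by_contra h0
      have : ‖ζ‖ = 0 := le_antisymm (not_lt.1 h0) (norm_nonneg _)
      rw [this, zero_pow (by positivity)] at hζ'
      linarith
    · rintro ⟨⟨r, θ⟩, ⟨⟨hr0, hr⟩, -⟩, rfl⟩
      show 3 < ‖_‖ ^ 2 ^ n
      rw [norm_mul, Complex.norm_real, Complex.norm_exp_ofReal_mul_I, mul_one, Real.norm_eq_abs,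
        abs_of_pos hr0]
      exact hr
  rw [h1]
  apply IsPreconnected.image
  · apply IsPreconnected.prod _ isPreconnected_univ
    have : OrdConnected {r : ℝ | 0 < r ∧ 3 < r ^ 2 ^ n} := by
      constructor
      rintro a ⟨ha0, ha⟩ b - c ⟨hac, -⟩
      exact ⟨ha0.trans_le hac, ha.trans_le (pow_le_pow_left₀ ha0.le hac _)⟩
    exact this.isPreconnected
  · fun_prop

lemma norm_le_of_norm_P_le {n : ℕ} {c : ℂ} {B : ℝ} (hB : 2 ≤ B) (h : ‖P (n + 1) c‖ ≤ B) :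
    ‖c‖ ≤ B := by
  by_cases hc : 2 ≤ ‖c‖
  · exact (norm_P_ge_of_large hc n).trans h
  · linarith

section

variable {n : ℕ} {Φ : ℂ → ℂ}

lemma Phi_differentiableAt (hΦ : ContinuousOn Φ (U n)) (hP : ∀ c ∈ U n, Φ c ^ 2 ^ n = P (n + 1) c)
    {c : ℂ} (hc : c ∈ U n) : DifferentiableAt ℂ Φ c := by
  have hcont : ContinuousAt Φ c := hΦ.continuousAt ((isOpen_U n).mem_nhds hc)
  have hne : Φ c ≠ 0 := by
    intro h0
    have h1 := hP c hc
    rw [h0, zero_pow (by positivity)] at h1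
    exact P_ne_zero_of_mem_U hc h1.symm
  refine differentiableAt_of_comp (g := fun z => z ^ 2 ^ n) (h := P (n + 1))
    (hasStrictDerivAt_pow (2 ^ n) (Φ c)) ?_ hcont ?_ (differentiable_P _ c)
  · apply mul_ne_zero
    · exact_mod_cast (pow_ne_zero _ (two_ne_zero : (2 : ℕ) ≠ 0))
    · exact pow_ne_zero _ hne
  · filter_upwards [(isOpen_U n).mem_nhds hc] with y hy
    exact hP y hy

lemma Phi_norm (hP : ∀ c ∈ U n, Φ c ^ 2 ^ n = P (n + 1) c) {c : ℂ} (hc : c ∈ U n) :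
    ‖Φ c‖ ^ 2 ^ n = ‖P (n + 1) c‖ := by
  rw [← hP c hc, norm_pow]

lemma nhds_le_map (hΦ : ContinuousOn Φ (U n)) (hP : ∀ c ∈ U n, Φ c ^ 2 ^ n = P (n + 1) c)
    {c : ℂ} (hc : c ∈ U n) : 𝓝 (Φ c) ≤ map Φ (𝓝 c) := by
  have han : AnalyticAt ℂ Φ c := by
    rw [Complex.analyticAt_iff_eventually_differentiableAt]
    filter_upwards [(isOpen_U n).mem_nhds hc] with y hy
    exact Phi_differentiableAt hΦ hP hy
  rcases han.eventually_constant_or_nhds_le_map_nhds with h | h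
  · exfalso
    have h1 : ∀ᶠ z in 𝓝 c, P (n + 1) z = P (n + 1) c := by
      filter_upwards [h, (isOpen_U n).mem_nhds hc] with z hz hzU
      rw [← hP z hzU, hz, hP c hc]
    have h2 : AnalyticOnNhd ℂ (P (n + 1)) univ :=
      (differentiable_P (n + 1)).differentiableOn.analyticOnNhd isOpen_univ
    have h3 : AnalyticOnNhd ℂ (fun _ : ℂ => P (n + 1) c) univ := fun z _ => analyticAt_const
    have h4 := h2.eqOn_of_preconnected_of_eventuallyEq h3 isPreconnected_univ (mem_univ c) h1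
    have h5 := h4 (mem_univ 0)
    have h6 : ‖P (n + 1) (0 : ℂ)‖ ≤ 2 := by
      apply (mem_M_iff_le 0).1
      exact mem_M_of_P_eq_zero (n := 1) le_rfl (P_one 0)
    simp only at h5
    rw [h5] at h6
    have h7 : 3 < ‖P (n + 1) c‖ := hc
    linarith
  · exact h

lemma isOpen_image (hΦ : ContinuousOn Φ (U n)) (hP : ∀ c ∈ U n, Φ c ^ 2 ^ n = P (n + 1) c)
    {W : Set ℂ} (hW : IsOpen W) (hWU : W ⊆ U n) : IsOpen (Φ '' W) := by
  rw [isOpen_iff_mem_nhds]
  rintro _ ⟨c, hc, rfl⟩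
  apply nhds_le_map hΦ hP (hWU hc)
  exact image_mem_map (hW.mem_nhds hc)

lemma V_subset_image (hΦ : ContinuousOn Φ (U n)) (hP : ∀ c ∈ U n, Φ c ^ 2 ^ n = P (n + 1) c) :
    V n ⊆ Φ '' U n := by
  apply (isPreconnected_V n).subset_of_closure_inter_subset (isOpen_image hΦ hP (isOpen_U n)
    Subset.rfl)
  · have h4 : (4 : ℂ) ∈ U n := by
      have h1 : (2 : ℝ) ≤ ‖(4 : ℂ)‖ := by norm_num
      have h2 := norm_P_ge_of_large h1 n
      show 3 < ‖P (n + 1) 4‖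
      have h3 : ‖(4 : ℂ)‖ = 4 := by norm_num
      linarith
    refine ⟨Φ 4, ?_, ⟨4, h4, rfl⟩⟩
    show 3 < ‖Φ 4‖ ^ 2 ^ n
    rw [Phi_norm hP h4]
    exact h4
  · rintro ζ ⟨hζcl, hζV⟩
    have hζ3 : 3 < ‖ζ‖ ^ 2 ^ n := hζV
    obtain ⟨a, ha3, haζ⟩ := exists_between hζ3
    set B : ℝ := ‖ζ‖ ^ 2 ^ n + 1 with hB
    set K : Set ℂ := {c | a ≤ ‖P (n + 1) c‖ ∧ ‖P (n + 1) c‖ ≤ B} with hK
    have hKU : K ⊆ U n := fun c hc => ha3.trans_le hc.1
    have hKc : IsCompact K := by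
      apply (isCompact_closedBall (0 : ℂ) B).of_isClosed_subset
      · exact (isClosed_le continuous_const (continuous_P _).norm).inter
          (isClosed_le (continuous_P _).norm continuous_const)
      · intro c hc
        rw [mem_closedBall_zero_iff]
        exact norm_le_of_norm_P_le (by rw [hB]; linarith) hc.2
    have hIm : IsClosed (Φ '' K) := (hKc.image_of_continuousOn (hΦ.mono hKU)).isClosed
    set N : Set ℂ := {z | a < ‖z‖ ^ 2 ^ n ∧ ‖z‖ ^ 2 ^ n < B} with hN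
    have hNo : IsOpen N := (isOpen_lt continuous_const (continuous_norm.pow _)).inter
      (isOpen_lt (continuous_norm.pow _) continuous_const)
    have hζN : ζ ∈ N := ⟨haζ, by rw [hB]; linarith⟩
    have h1 : ζ ∈ closure (Φ '' U n ∩ N) := by
      rw [mem_closure_iff_nhds] at hζcl ⊢
      intro t ht
      obtain ⟨x, hx⟩ := hζcl (t ∩ N) (inter_mem ht (hNo.mem_nhds hζN))
      exact ⟨x, hx.1.1, hx.2, hx.1.2⟩
    have h2 : Φ '' U n ∩ N ⊆ Φ '' K := by
      rintro _ ⟨⟨c, hc, rfl⟩, hcN⟩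
      refine ⟨c, ?_, rfl⟩
      have hcN' := hcN
      rw [hN, mem_ofPred_eq, Phi_norm hP hc] at hcN'
      exact ⟨hcN'.1.le, hcN'.2.le⟩
    exact image_mono hKU (closure_minimal h2 hIm h1)

lemma roots_facts (hΦ : ContinuousOn Φ (U n)) (hP : ∀ c ∈ U n, Φ c ^ 2 ^ n = P (n + 1) c)
    {ζ : ℂ} (hζ : ζ ∈ V n) :
    InjOn Φ {c | P (n + 1) c = ζ ^ 2 ^ n} ∧
    ∀ c, P (n + 1) c = ζ ^ 2 ^ n → (PP (n + 1)).derivative.eval c ≠ 0 := by
  classical
  have hζ3 : 3 < ‖ζ‖ ^ 2 ^ n := hζ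
  set η : ℂ := ζ ^ 2 ^ n with hη
  set p : Polynomial ℂ := PP (n + 1) - Polynomial.C η with hp
  obtain ⟨hmon, hdeg⟩ := PP_monic_natDegree n
  have hpdeg : p.natDegree = 2 ^ n := by
    rw [hp, Polynomial.natDegree_sub_C, hdeg]
  have hp0 : p ≠ 0 := by
    intro h0
    rw [h0, Polynomial.natDegree_zero] at hpdeg
    have : 0 < 2 ^ n := by positivity
    omega
  have hroot : ∀ c, c ∈ p.roots.toFinset ↔ P (n + 1) c = η := by
    intro c
    rw [Multiset.mem_toFinset, Polynomial.mem_roots hp0, Polynomial.IsRoot.def, hp,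
      Polynomial.eval_sub, Polynomial.eval_C, eval_PP, sub_eq_zero]
  have hcardR : p.roots.toFinset.card ≤ 2 ^ n := by
    calc p.roots.toFinset.card ≤ p.roots.card := Multiset.toFinset_card_le _
      _ ≤ p.natDegree := p.card_roots'
      _ = 2 ^ n := hpdeg
  have h2n : (2 ^ n : ℕ) ≠ 0 := by positivity
  have : NeZero (2 ^ n) := ⟨h2n⟩
  have hω : IsPrimitiveRoot (Complex.exp (2 * Real.pi * Complex.I / (2 ^ n : ℕ))) (2 ^ n) :=
    Complex.isPrimitiveRoot_exp (2 ^ n) h2n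
  set ω : ℂ := Complex.exp (2 * Real.pi * Complex.I / (2 ^ n : ℕ)) with hωdef
  have hζ0 : ζ ≠ 0 := by
    rintro rfl
    rw [norm_zero, zero_pow h2n] at hζ3
    linarith
  set Z : Finset ℂ := (Finset.range (2 ^ n)).image (fun j => ζ * ω ^ j) with hZ
  have hcardZ : Z.card = 2 ^ n := by
    rw [hZ, Finset.card_image_of_injOn, Finset.card_range]
    intro i hi j hj hij
    simp only at hij
    have h1 : ω ^ i = ω ^ j := mul_left_cancel₀ hζ0 hij
    exact hω.pow_inj (Finset.mem_range.1 hi) (Finset.mem_range.1 hj) h1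
  have hmaps : MapsTo Φ (p.roots.toFinset : Set ℂ) (Z : Set ℂ) := by
    intro c hc
    have hc' := (hroot c).1 hc
    have hcU : c ∈ U n := by
      show 3 < ‖P (n + 1) c‖
      rw [hc', hη, norm_pow]
      exact hζ3
    have h1 : (Φ c / ζ) ^ 2 ^ n = 1 := by
      rw [div_pow, hP c hcU, hc', hη, div_self (pow_ne_zero _ hζ0)]
    obtain ⟨i, hi, hi'⟩ := hω.eq_pow_of_pow_eq_one h1
    rw [Finset.mem_coe, hZ, Finset.mem_image]
    refine ⟨i, Finset.mem_range.2 hi, ?_⟩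
    rw [hi']
    field_simp
  have hsurj : SurjOn Φ (p.roots.toFinset : Set ℂ) (Z : Set ℂ) := by
    intro z hz
    rw [Finset.mem_coe, hZ, Finset.mem_image] at hz
    obtain ⟨j, hj, rfl⟩ := hz
    have hpow : (ζ * ω ^ j) ^ 2 ^ n = η := by
      rw [mul_pow, ← pow_mul, mul_comm j, pow_mul, hω.pow_eq_one, one_pow, mul_one, hη]
    have hV : ζ * ω ^ j ∈ V n := by
      show 3 < ‖ζ * ω ^ j‖ ^ 2 ^ n
      rw [← norm_pow, hpow, hη, norm_pow]
      exact hζ3
    obtain ⟨c, hc, hcΦ⟩ := V_subset_image hΦ hP hV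
    refine ⟨c, ?_, hcΦ⟩
    rw [Finset.mem_coe, hroot, ← hP c hc, hcΦ, hpow]
  have hinj := Finset.injOn_of_surjOn_of_card_le Φ hmaps hsurj (by rw [hcardZ]; exact hcardR)
  constructor
  · intro a ha b hb hab
    exact hinj (Finset.mem_coe.2 ((hroot a).2 ha)) (Finset.mem_coe.2 ((hroot b).2 hb)) hab
  · intro c hc hder
    have hcardR' : 2 ^ n ≤ p.roots.toFinset.card := by
      rw [← hcardZ]
      exact Finset.card_le_card_of_surjOn Φ hsurj
    have hnodup : p.roots.Nodup := by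
      rw [← Multiset.toFinset_card_eq_card_iff_nodup]
      apply le_antisymm (Multiset.toFinset_card_le _)
      calc p.roots.card ≤ p.natDegree := p.card_roots'
        _ = 2 ^ n := hpdeg
        _ ≤ _ := hcardR'
    have h1 : 1 < p.rootMultiplicity c := by
      rw [Polynomial.one_lt_rootMultiplicity_iff_isRoot hp0]
      constructor
      · have := (hroot c).2 hc
        rw [Multiset.mem_toFinset, Polynomial.mem_roots hp0] at this
        exact this
      · rw [Polynomial.IsRoot.def, hp, Polynomial.derivative_sub, Polynomial.derivative_C, sub_zero]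
        exact hder
    have h2 := Multiset.nodup_iff_count_le_one.1 hnodup c
    rw [Polynomial.count_roots] at h2
    omega

end

/-- For every `n` there is a conformal bijection `ψ : V n → U n` with
`P (n + 1) (ψ ζ) = ζ ^ 2 ^ n`. -/
theorem exists_psi (n : ℕ) : ∃ Φ ψ : ℂ → ℂ, DifferentiableOn ℂ Φ (U n) ∧
    DifferentiableOn ℂ ψ (V n) ∧ (∀ c ∈ U n, Φ c ∈ V n) ∧ (∀ ζ ∈ V n, ψ ζ ∈ U n) ∧
    (∀ c ∈ U n, ψ (Φ c) = c) ∧ (∀ ζ ∈ V n, Φ (ψ ζ) = ζ) ∧
    (∀ c ∈ U n, Φ c ^ 2 ^ n = P (n + 1) c) ∧ (∀ ζ ∈ V n, P (n + 1) (ψ ζ) = ζ ^ 2 ^ n) := by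
  obtain ⟨Φ, hΦ, hP⟩ := exists_root n
  have hmaps : ∀ c ∈ U n, Φ c ∈ V n := by
    intro c hc
    show 3 < ‖Φ c‖ ^ 2 ^ n
    rw [Phi_norm hP hc]
    exact hc
  have hinj : InjOn Φ (U n) := by
    intro c hc c' hc' h
    refine (roots_facts hΦ hP (hmaps c hc)).1 ?_ ?_ h
    · exact (hP c hc).symm
    · rw [mem_ofPred_eq, h]; exact (hP c' hc').symm
  have hsurj : ∀ ζ ∈ V n, ∃ c, c ∈ U n ∧ Φ c = ζ := fun ζ hζ => V_subset_image hΦ hP hζ
  choose! ψ hψU hψ using hsurj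
  have hψP : ∀ ζ ∈ V n, P (n + 1) (ψ ζ) = ζ ^ 2 ^ n := by
    intro ζ hζ
    rw [← hP _ (hψU ζ hζ), hψ ζ hζ]
  refine ⟨Φ, ψ, fun c hc => (Phi_differentiableAt hΦ hP hc).differentiableWithinAt, ?_, hmaps,
    hψU, fun c hc => hinj (hψU _ (hmaps c hc)) hc (hψ _ (hmaps c hc)), hψ, hP, hψP⟩
  intro ζ hζ
  have hcont : ContinuousAt ψ ζ := by
    intro W hW
    rw [mem_map]
    obtain ⟨W', hW'W, hW'o, hζW'⟩ :=
      _root_.mem_nhds_iff.1 (inter_mem hW ((isOpen_U n).mem_nhds (hψU ζ hζ)))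
    have h1 : Φ '' W' ∈ 𝓝 ζ := by
      apply (isOpen_image hΦ hP hW'o (fun x hx => (hW'W hx).2)).mem_nhds
      exact ⟨ψ ζ, hζW', hψ ζ hζ⟩
    filter_upwards [h1, (isOpen_V n).mem_nhds hζ] with z hz hzV
    obtain ⟨c, hc, rfl⟩ := hz
    have hcU : c ∈ U n := (hW'W hc).2
    have h2 : ψ (Φ c) = c := hinj (hψU _ hzV) hcU (hψ _ hzV)
    show ψ (Φ c) ∈ W
    rw [h2]
    exact (hW'W hc).1
  have hder : HasStrictDerivAt (P (n + 1)) ((PP (n + 1)).derivative.eval (ψ ζ)) (ψ ζ) := by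
    have h1 := (PP (n + 1)).hasStrictDerivAt (ψ ζ)
    have h2 : (fun x => (PP (n + 1)).eval x) = P (n + 1) := by
      funext x; exact eval_PP (n + 1) x
    rwa [h2] at h1
  refine (differentiableAt_of_comp (h := fun z => z ^ 2 ^ n) hder
    ((roots_facts hΦ hP hζ).2 _ (hψP ζ hζ)) hcont ?_ (differentiableAt_pow _)).differentiableWithinAt
  filter_upwards [(isOpen_V n).mem_nhds hζ] with z hz
  exact hψP z hz

end Pool.Agent.Work.MP_c6f924_an_laurent
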