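import Pool.Agent.Work.MP_c6f924_an_laurent.DH2

set_option autoImplicit false

/-!
Douady-Hubbard, part 3: normalisation at infinity and Laurent coefficients with uniform bounds.
-/

namespace Pool.Agent.Work.MP_c6f924_an_laurent

open Pool.Agent.Work.MP_c6f924_an
open Set Filter Metric Topology Bornology

/-- The disc `{w | 3 ‖w‖ ^ 2 ^ n < 1}`. -/
def D (n : ℕ) : Set ℂ := {w | 3 * ‖w‖ ^ 2 ^ n < 1}

lemma isOpen_D (n : ℕ) : IsOpen (D n) :=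
  isOpen_lt (continuous_const.mul (continuous_norm.pow _)) continuous_const

lemma zero_mem_D (n : ℕ) : (0 : ℂ) ∈ D n := by
  show 3 * ‖(0 : ℂ)‖ ^ 2 ^ n < 1
  rw [norm_zero, zero_pow (by positivity)]
  norm_num

lemma inv_mem_V {n : ℕ} {w : ℂ} (hw : w ∈ D n) (hw0 : w ≠ 0) : w⁻¹ ∈ V n := by
  have h1 : 3 * ‖w‖ ^ 2 ^ n < 1 := hw
  have h2 : 0 < ‖w‖ ^ 2 ^ n := pow_pos (norm_pos_iff.2 hw0) _
  show 3 < ‖w⁻¹‖ ^ 2 ^ n
  rw [norm_inv, inv_pow, ← one_div, lt_div_iff₀ h2]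
  exact h1

lemma norm_lt_one_of_mem_D {n : ℕ} {w : ℂ} (hw : w ∈ D n) : ‖w‖ < 1 := by
  by_contra h
  push Not at h
  have h1 : 3 * ‖w‖ ^ 2 ^ n < 1 := hw
  have h2 : 1 ≤ ‖w‖ ^ 2 ^ n := one_le_pow₀ h
  linarith

lemma norm_sub_one_pow_le {c : ℂ} (hc : 2 ≤ ‖c‖) (k : ℕ) :
    (‖c‖ - 1) ^ 2 ^ k ≤ ‖P (k + 1) c‖ - 1 := by
  induction k with
  | zero => simp [P_one]
  | succ k ih =>
    have h1 := norm_P_ge_of_large hc k
    have h2 := norm_P_succ_ge (k + 1) c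
    rw [pow_succ, pow_mul]
    have h3 : ((‖c‖ - 1) ^ 2 ^ k) ^ 2 ≤ (‖P (k + 1) c‖ - 1) ^ 2 :=
      pow_le_pow_left₀ (pow_nonneg (by linarith) _) ih 2
    nlinarith

lemma norm_psi_le {n : ℕ} {ζ c : ℂ} (h : P (n + 1) c = ζ ^ 2 ^ n) : ‖c‖ ≤ ‖ζ‖ + 2 := by
  by_cases hc : 2 ≤ ‖c‖
  · have h1 := norm_sub_one_pow_le hc n
    rw [h, norm_pow] at h1
    have h2 : (‖c‖ - 1) ^ 2 ^ n ≤ ‖ζ‖ ^ 2 ^ n := by linarith
    have h3 := le_of_pow_le_pow_left₀ (show (2 ^ n : ℕ) ≠ 0 by positivity) (norm_nonneg ζ) h2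
    linarith
  · push Not at hc
    linarith [norm_nonneg ζ]

/-- `RR w e k = w ^ 2 ^ k * P (k + 1) (e / w)` -/
def RR (w e : ℂ) : ℕ → ℂ
  | 0 => e
  | k + 1 => RR w e k ^ 2 + w ^ (2 ^ (k + 1) - 1) * e

lemma RR_eq (w c : ℂ) (k : ℕ) : RR w (w * c) k = w ^ 2 ^ k * P (k + 1) c := by
  induction k with
  | zero => simp [RR, P_one]
  | succ k ih =>
    have h1 : 2 ^ (k + 1) - 1 + 1 = 2 ^ (k + 1) := Nat.sub_add_cancel Nat.one_le_two_pow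
    have h2 : w ^ (2 ^ (k + 1) - 1) * (w * c) = w ^ 2 ^ (k + 1) * c := by
      rw [← mul_assoc, ← pow_succ, h1]
    simp only [RR]
    rw [ih, h2, P_succ (k + 1)]
    have h3 : (w ^ 2 ^ k) ^ 2 = w ^ 2 ^ (k + 1) := by rw [← pow_mul, pow_succ]
    rw [mul_pow, h3]
    ring

lemma RR_zero_left (e : ℂ) (k : ℕ) : RR 0 e k = e ^ 2 ^ k := by
  induction k with
  | zero => simp [RR]
  | succ k ih =>
    have h1 : 2 ^ (k + 1) - 1 ≠ 0 := by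
      have : 2 ≤ 2 ^ (k + 1) := by
        calc 2 = 2 ^ 1 := rfl
          _ ≤ 2 ^ (k + 1) := Nat.pow_le_pow_right (by norm_num) (by omega)
      omega
    rw [RR, ih, zero_pow h1, zero_mul, add_zero, ← pow_mul, pow_succ]

lemma continuousAt_RR {E : ℂ → ℂ} (hE : ContinuousAt E 0) (k : ℕ) :
    ContinuousAt (fun w => RR w (E w) k) 0 := by
  induction k with
  | zero => exact hE
  | succ k ih =>
    simp only [RR]
    exact (ih.pow 2).add (((continuous_pow _).continuousAt).mul hE)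

theorem normalised (n : ℕ) : ∃ Φ ψ E : ℂ → ℂ, DifferentiableOn ℂ Φ (U n) ∧
    DifferentiableOn ℂ E (D n) ∧ E 0 = 1 ∧ (∀ w ∈ D n, w ≠ 0 → w * ψ w⁻¹ = E w) ∧
    (∀ c ∈ U n, Φ c ∈ V n) ∧ (∀ ζ ∈ V n, ψ ζ ∈ U n) ∧
    (∀ c ∈ U n, ψ (Φ c) = c) ∧ (∀ ζ ∈ V n, Φ (ψ ζ) = ζ) ∧
    (∀ c ∈ U n, Φ c ^ 2 ^ n = P (n + 1) c) ∧ (∀ ζ ∈ V n, P (n + 1) (ψ ζ) = ζ ^ 2 ^ n) := by
  obtain ⟨Φ, ψ, hΦ, hψ, hmaps, hψU, hψΦ, hΦψ, hP, hψP⟩ := exists_psi n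
  have h2n : (2 ^ n : ℕ) ≠ 0 := by positivity
  set e : ℂ → ℂ := fun w => w * ψ w⁻¹ with he
  have hd : DifferentiableOn ℂ e (D n \ {0}) := by
    apply differentiableOn_id.mul
    apply hψ.comp
    · intro w hw
      exact (differentiableAt_inv hw.2).differentiableWithinAt
    · intro w hw
      exact inv_mem_V hw.1 hw.2
  have hb : BddAbove (norm ∘ e '' (D n \ {0})) := by
    refine ⟨3, ?_⟩
    rintro _ ⟨w, hw, rfl⟩
    have hw0 : w ≠ 0 := hw.2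
    have h1 := norm_psi_le (hψP _ (inv_mem_V hw.1 hw0))
    have h2 := norm_lt_one_of_mem_D hw.1
    have hw0' : 0 < ‖w‖ := norm_pos_iff.2 hw0
    simp only [Function.comp_apply, he, norm_mul]
    rw [norm_inv] at h1
    calc ‖w‖ * ‖ψ w⁻¹‖ ≤ ‖w‖ * (‖w‖⁻¹ + 2) := by gcongr
      _ = 1 + 2 * ‖w‖ := by field_simp
      _ ≤ 3 := by linarith
  have hE₀ := Complex.differentiableOn_update_limUnder_of_bddAbove
    ((isOpen_D n).mem_nhds (zero_mem_D n)) hd hb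
  set E₀ : ℂ → ℂ := Function.update e 0 (limUnder (𝓝[≠] 0) e) with hE₀def
  have hE₀eq : ∀ w, w ≠ 0 → E₀ w = w * ψ w⁻¹ := by
    intro w hw
    rw [hE₀def, Function.update_of_ne hw]
  have hcont : ContinuousAt E₀ 0 :=
    (hE₀.differentiableAt ((isOpen_D n).mem_nhds (zero_mem_D n))).continuousAt
  have hpow : E₀ 0 ^ 2 ^ n = 1 := by
    have h1 := (continuousAt_RR hcont n).tendsto
    rw [RR_zero_left] at h1
    have h2 : Tendsto (fun w => RR w (E₀ w) n) (𝓝[≠] 0) (𝓝 (E₀ 0 ^ 2 ^ n)) :=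
      h1.mono_left nhdsWithin_le_nhds
    have h3 : Tendsto (fun w => RR w (E₀ w) n) (𝓝[≠] 0) (𝓝 1) := by
      apply tendsto_const_nhds.congr'
      have h4 : D n ∈ 𝓝[≠] (0 : ℂ) :=
        mem_nhdsWithin_of_mem_nhds ((isOpen_D n).mem_nhds (zero_mem_D n))
      filter_upwards [h4, self_mem_nhdsWithin] with w hw hw0
      have hw0' : w ≠ 0 := hw0
      rw [hE₀eq w hw0', RR_eq, hψP _ (inv_mem_V hw hw0'), ← mul_pow, mul_inv_cancel₀ hw0', one_pow]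
    exact tendsto_nhds_unique h2 h3
  set ω : ℂ := E₀ 0 with hω
  have hω0 : ω ≠ 0 := by
    intro h0
    rw [h0, zero_pow h2n] at hpow
    exact zero_ne_one hpow
  have hωn : ‖ω‖ = 1 := by
    have h1 : ‖ω‖ ^ 2 ^ n = 1 := by rw [← norm_pow, hpow, norm_one]
    exact (pow_eq_one_iff_of_nonneg (norm_nonneg _) h2n).1 h1
  have hωV : ∀ {ζ : ℂ}, ζ ∈ V n → ω⁻¹ * ζ ∈ V n := by
    intro ζ hζ
    show 3 < ‖ω⁻¹ * ζ‖ ^ 2 ^ n
    rw [norm_mul, norm_inv, hωn, inv_one, one_mul]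
    exact hζ
  have hωV' : ∀ {ζ : ℂ}, ζ ∈ V n → ω * ζ ∈ V n := by
    intro ζ hζ
    show 3 < ‖ω * ζ‖ ^ 2 ^ n
    rw [norm_mul, hωn, one_mul]
    exact hζ
  have hωD : ∀ {w : ℂ}, w ∈ D n → ω * w ∈ D n := by
    intro w hw
    show 3 * ‖ω * w‖ ^ 2 ^ n < 1
    rw [norm_mul, hωn, one_mul]
    exact hw
  refine ⟨fun c => ω * Φ c, fun ζ => ψ (ω⁻¹ * ζ), fun w => ω⁻¹ * E₀ (ω * w), ?_, ?_, ?_, ?_, ?_, ?_,
    ?_, ?_, ?_, ?_⟩
  · exact (differentiableOn_const _).mul hΦ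
  · apply (differentiableOn_const _).mul
    apply hE₀.comp
    · fun_prop
    · intro w hw
      exact hωD hw
  · simp only [mul_zero]
    rw [← hω]
    exact inv_mul_cancel₀ hω0
  · intro w hw hw0
    have h1 : ω * w ≠ 0 := mul_ne_zero hω0 hw0
    simp only
    rw [hE₀eq _ h1, mul_inv]
    field_simp
  · intro c hc
    exact hωV' (hmaps c hc)
  · intro ζ hζ
    exact hψU _ (hωV hζ)
  · intro c hc
    simp only
    rw [inv_mul_cancel_left₀ hω0]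
    exact hψΦ c hc
  · intro ζ hζ
    simp only
    rw [hΦψ _ (hωV hζ), mul_inv_cancel_left₀ hω0]
  · intro c hc
    simp only
    rw [mul_pow, hpow, one_mul, hP c hc]
  · intro ζ hζ
    simp only
    rw [hψP _ (hωV hζ), mul_pow, inv_pow, hpow, inv_one, one_mul]

/-- Everything about the `n`-th approximation. -/
theorem approx (n : ℕ) : ∃ (Φ ψ : ℂ → ℂ) (b : ℕ → ℂ), DifferentiableOn ℂ Φ (U n) ∧
    (∀ c ∈ U n, Φ c ∈ V n) ∧ (∀ ζ ∈ V n, ψ ζ ∈ U n) ∧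
    (∀ c ∈ U n, ψ (Φ c) = c) ∧ (∀ ζ ∈ V n, Φ (ψ ζ) = ζ) ∧
    (∀ c ∈ U n, Φ c ^ 2 ^ n = P (n + 1) c) ∧ (∀ ζ ∈ V n, P (n + 1) (ψ ζ) = ζ ^ 2 ^ n) ∧
    (∀ w ∈ D n, w ≠ 0 → HasSum (fun m : ℕ => b m * w ^ m) (ψ w⁻¹ - w⁻¹)) ∧
    (∀ R : ℝ, 0 < R → 3 * R ^ 2 ^ n < 1 → ∀ m, ‖b m‖ ≤ (2 / R + 2) / R ^ m) := by
  obtain ⟨Φ, ψ, E, hΦ, hE, hE0, hEeq, hmaps, hψU, hψΦ, hΦψ, hP, hψP⟩ := normalised n
  set F : ℂ → ℂ := dslope E 0 with hF
  have hFd : DifferentiableOn ℂ F (D n) :=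
    (Complex.differentiableOn_dslope ((isOpen_D n).mem_nhds (zero_mem_D n))).2 hE
  have hFeq : ∀ w ∈ D n, w ≠ 0 → F w = ψ w⁻¹ - w⁻¹ := by
    intro w hw hw0
    rw [hF, dslope_of_ne _ hw0, slope_def_field, hE0, ← hEeq w hw hw0, sub_zero]
    field_simp
  have hball : ∀ R : ℝ, 0 < R → 3 * R ^ 2 ^ n < 1 → closedBall (0 : ℂ) R ⊆ D n := by
    intro R hR hR3 w hw
    rw [mem_closedBall_zero_iff] at hw
    show 3 * ‖w‖ ^ 2 ^ n < 1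
    have : ‖w‖ ^ 2 ^ n ≤ R ^ 2 ^ n := pow_le_pow_left₀ (norm_nonneg _) hw _
    linarith
  refine ⟨Φ, ψ, fun m => (m.factorial : ℂ)⁻¹ * iteratedDeriv m F 0, hΦ, hmaps, hψU, hψΦ, hΦψ, hP,
    hψP, ?_, ?_⟩
  · intro w hw hw0
    have hw' : 3 * ‖w‖ ^ 2 ^ n < 1 := hw
    obtain ⟨R, hRw, hR3⟩ : ∃ R : ℝ, ‖w‖ < R ∧ 3 * R ^ 2 ^ n < 1 := by
      have hc : ContinuousAt (fun R : ℝ => 3 * R ^ 2 ^ n) ‖w‖ := by fun_prop
      have h1 : ∀ᶠ R in 𝓝[>] ‖w‖, 3 * R ^ 2 ^ n < 1 :=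
        (hc.eventually_lt_const hw').filter_mono nhdsWithin_le_nhds
      obtain ⟨R, hR1, hR2⟩ := (h1.and self_mem_nhdsWithin).exists
      exact ⟨R, hR2, hR1⟩
    have hR0 : 0 < R := (norm_nonneg w).trans_lt hRw
    have h2 := Complex.hasSum_taylorSeries_on_ball
      (hFd.mono (ball_subset_closedBall.trans (hball R hR0 hR3)))
      (show w ∈ ball (0 : ℂ) R by rwa [mem_ball_zero_iff])
    rw [hFeq w hw hw0] at h2
    have h3 : (fun m : ℕ => (m.factorial : ℂ)⁻¹ * iteratedDeriv m F 0 * w ^ m) =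
        fun n : ℕ => (n.factorial : ℂ)⁻¹ • (w - 0) ^ n • iteratedDeriv n F 0 := by
      funext m
      simp only [smul_eq_mul, sub_zero]
      ring
    rw [h3]
    exact h2
  · intro R hR hR3 m
    have h1 : DiffContOnCl ℂ F (ball 0 R) := by
      apply DifferentiableOn.diffContOnCl
      rw [closure_ball _ hR.ne']
      exact hFd.mono (hball R hR hR3)
    have h2 : ∀ z ∈ sphere (0 : ℂ) R, ‖F z‖ ≤ 2 / R + 2 := by
      intro z hz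
      have hzR := mem_sphere_zero_iff_norm.1 hz
      have hz0 : z ≠ 0 := by
        rw [← norm_pos_iff, hzR]; exact hR
      have hzD : z ∈ D n := hball R hR hR3 (sphere_subset_closedBall hz)
      rw [hFeq z hzD hz0]
      have h3 := norm_psi_le (hψP _ (inv_mem_V hzD hz0))
      have h4 := norm_sub_le (ψ z⁻¹) z⁻¹
      rw [norm_inv, hzR] at h3 h4
      have h5 : 2 / R = R⁻¹ + R⁻¹ := by field_simp; norm_num
      linarith
    have h3 := Complex.norm_iteratedDeriv_le_of_forall_mem_sphere_norm_le m hR h1 h2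
    rw [norm_mul, norm_inv, Complex.norm_natCast]
    have h4 : (0 : ℝ) < m.factorial := by exact_mod_cast m.factorial_pos
    calc (m.factorial : ℝ)⁻¹ * ‖iteratedDeriv m F 0‖
        ≤ (m.factorial : ℝ)⁻¹ * (m.factorial * (2 / R + 2) / R ^ m) := by gcongr
      _ = (2 / R + 2) / R ^ m := by field_simp

end Pool.Agent.Work.MP_c6f924_an_laurent
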