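import Pool.Agent.Work.MP_c6f924_an_laurent.Slow2

set_option autoImplicit false

/-!
The exterior of the Mandelbrot set: lower bound for `‖ψ z + 3/4‖` for the Riemann map `ψ`.
-/

namespace Pool.Agent.Work.MP_c6f924_an_laurent

open Pool.Agent.Work.MP_c6f924_an
open Set Filter Metric Topology Bornology

/-- `ψ` is holomorphic outside the closed unit disc with Laurent expansion `z + ∑ b m z ^ (-m)`. -/
def Laurent (ψ : ℂ → ℂ) (b : ℕ → ℂ) : Prop :=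
  ∀ z : ℂ, 1 < ‖z‖ → HasSum (fun m : ℕ => b m * z⁻¹ ^ m) (ψ z - z)

section series

variable {ψ : ℂ → ℂ} {b : ℕ → ℂ}

/-- the power series in `w = 1 / z` -/
noncomputable def F (b : ℕ → ℂ) (w : ℂ) : ℂ := ∑' m : ℕ, b m * w ^ m

lemma hasSum_F (h : Laurent ψ b) {w : ℂ} (hw0 : w ≠ 0) (hw : ‖w‖ < 1) :
    HasSum (fun m : ℕ => b m * w ^ m) (ψ w⁻¹ - w⁻¹) := by
  have h1 : 1 < ‖w⁻¹‖ := by
    rw [norm_inv]
    exact (one_lt_inv₀ (norm_pos_iff.2 hw0)).2 hw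
  have := h w⁻¹ h1
  rwa [inv_inv] at this

lemma psi_inv_eq (h : Laurent ψ b) {w : ℂ} (hw0 : w ≠ 0) (hw : ‖w‖ < 1) :
    ψ w⁻¹ = w⁻¹ + F b w := by
  rw [F, (hasSum_F h hw0 hw).tsum_eq]; ring

lemma psi_eq (h : Laurent ψ b) {z : ℂ} (hz : 1 < ‖z‖) : ψ z = z + F b z⁻¹ := by
  have hz0 : z ≠ 0 := by
    rintro rfl
    simp at hz
    linarith
  have := psi_inv_eq h (inv_ne_zero hz0) (by rw [norm_inv]; exact inv_lt_one_of_one_lt₀ hz)
  rwa [inv_inv] at this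

lemma summable_norm_mul (h : Laurent ψ b) {r : ℝ} (hr0 : 0 ≤ r) (hr : r < 1) :
    Summable fun m : ℕ => ‖b m‖ * r ^ m := by
  obtain ⟨r', hr', hr'1⟩ := exists_between hr
  have hr'0 : 0 < r' := hr0.trans_lt hr'
  have h1 : Summable fun m : ℕ => b m * (r' : ℂ) ^ m :=
    (hasSum_F h (w := (r' : ℂ)) (by exact_mod_cast hr'0.ne')
      (by rw [Complex.norm_real, Real.norm_eq_abs, abs_of_pos hr'0]; exact hr'1)).summable
  have h2 : Tendsto (fun m : ℕ => ‖b m * (r' : ℂ) ^ m‖) atTop (𝓝 0) := by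
    simpa using h1.tendsto_atTop_zero.norm
  obtain ⟨C, hC⟩ := h2.bddAbove_range
  have hC' : ∀ m, ‖b m‖ * r' ^ m ≤ C := by
    intro m
    have := hC ⟨m, rfl⟩
    simp only [norm_mul, norm_pow, Complex.norm_real, Real.norm_eq_abs, abs_of_pos hr'0] at this
    exact this
  have hq : r / r' < 1 := (div_lt_one hr'0).2 hr'
  have hq0 : 0 ≤ r / r' := div_nonneg hr0 hr'0.le
  refine Summable.of_nonneg_of_le (fun m => by positivity) (fun m => ?_)
    ((summable_geometric_of_lt_one hq0 hq).mul_left C)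
  have e : r ^ m = r' ^ m * (r / r') ^ m := by
    rw [← mul_pow, mul_div_cancel₀ _ hr'0.ne']
  rw [e, ← mul_assoc]
  exact mul_le_mul_of_nonneg_right (hC' m) (by positivity)

lemma differentiableOn_F (h : Laurent ψ b) : DifferentiableOn ℂ (F b) (ball 0 1) := by
  intro w hw
  rw [mem_ball_zero_iff] at hw
  obtain ⟨r, hr, hr1⟩ := exists_between hw
  have hr0 : 0 ≤ r := (norm_nonneg w).trans hr.le
  have h1 : DifferentiableOn ℂ (fun w : ℂ => ∑' m : ℕ, b m * w ^ m) (ball 0 r) := by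
    apply Complex.differentiableOn_tsum_of_summable_norm (summable_norm_mul h hr0 hr1)
    · intro m
      fun_prop
    · exact isOpen_ball
    · intro m z hz
      rw [mem_ball_zero_iff] at hz
      rw [norm_mul, norm_pow]
      gcongr
  have h2 : DifferentiableAt ℂ (F b) w :=
    h1.differentiableAt (isOpen_ball.mem_nhds (by rwa [mem_ball_zero_iff]))
  exact h2.differentiableWithinAt

/-- `E w = w ψ (1 / w)` -/
noncomputable def E (b : ℕ → ℂ) (w : ℂ) : ℂ := 1 + w * F b w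

lemma differentiableOn_E (h : Laurent ψ b) : DifferentiableOn ℂ (E b) (ball 0 1) :=
  (differentiableOn_const 1).add (differentiableOn_id.mul (differentiableOn_F h))

/-- `R n w = w ^ (2 ^ n) P (n + 1) (ψ (1 / w))` -/
noncomputable def R (b : ℕ → ℂ) : ℕ → ℂ → ℂ
  | 0 => E b
  | n + 1 => fun w => R b n w ^ 2 + w ^ (2 ^ (n + 1) - 1) * E b w

lemma differentiableOn_R (h : Laurent ψ b) (n : ℕ) : DifferentiableOn ℂ (R b n) (ball 0 1) := by
  induction n with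
  | zero => exact differentiableOn_E h
  | succ n ih =>
    exact (ih.pow 2).add (((differentiable_pow _).differentiableOn).mul (differentiableOn_E h))

lemma R_zero_right (n : ℕ) : R b n 0 = 1 := by
  induction n with
  | zero => simp [R, E]
  | succ n ih =>
    have : 2 ^ (n + 1) - 1 ≠ 0 := by
      have : 2 ≤ 2 ^ (n + 1) := by
        calc 2 = 2 ^ 1 := rfl
          _ ≤ 2 ^ (n + 1) := Nat.pow_le_pow_right (by norm_num) (by omega)
      omega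
    simp [R, ih, this]

lemma R_eq (h : Laurent ψ b) {w : ℂ} (hw0 : w ≠ 0) (hw : ‖w‖ < 1) (n : ℕ) :
    R b n w = w ^ 2 ^ n * P (n + 1) (ψ w⁻¹) := by
  have hE : E b w = w * ψ w⁻¹ := by
    rw [psi_inv_eq h hw0 hw, E]
    field_simp
  induction n with
  | zero => simp [R, hE, P_one]
  | succ n ih =>
    have h1 : 2 ^ (n + 1) - 1 + 1 = 2 ^ (n + 1) := Nat.sub_add_cancel Nat.one_le_two_pow
    have h2 : w ^ (2 ^ (n + 1) - 1) * (w * ψ w⁻¹) = w ^ 2 ^ (n + 1) * ψ w⁻¹ := by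
      rw [← mul_assoc, ← pow_succ, h1]
    simp only [R]
    rw [ih, hE, h2, P_succ (n + 1)]
    have h3 : (w ^ 2 ^ n) ^ 2 = w ^ 2 ^ (n + 1) := by rw [← pow_mul, pow_succ]
    rw [mul_pow, h3]
    ring

lemma R_ne_zero (h : Laurent ψ b) (hmap : ∀ z, 1 < ‖z‖ → ψ z ∉ M) {w : ℂ} (hw : ‖w‖ < 1)
    (n : ℕ) : R b n w ≠ 0 := by
  by_cases hw0 : w = 0
  · rw [hw0, R_zero_right]; exact one_ne_zero
  · rw [R_eq h hw0 hw]
    apply mul_ne_zero (pow_ne_zero _ hw0)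
    intro h0
    have h1 : 1 < ‖w⁻¹‖ := by
      rw [norm_inv]
      exact (one_lt_inv₀ (norm_pos_iff.2 hw0)).2 hw
    exact hmap _ h1 (mem_M_of_P_eq_zero (by omega) h0)

end series

lemma uniform_escape {K : Set ℂ} (hK : IsCompact K) (hKM : ∀ c ∈ K, c ∉ M) :
    ∃ N, ∀ n, N ≤ n → ∀ c ∈ K, 3 < ‖P n c‖ := by
  have hopen : ∀ m : ℕ, IsOpen {c : ℂ | 3 < ‖P m c‖} := fun m =>
    isOpen_lt continuous_const (continuous_P m).norm
  have hcov : K ⊆ ⋃ m : ℕ, {c : ℂ | 3 < ‖P m c‖} := by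
    intro c hc
    by_contra hcon
    simp only [mem_iUnion, mem_ofPred_eq, not_exists, not_lt] at hcon
    exact hKM c hc (mem_M_of_forall_le_three hcon)
  have hmono : ∀ {m n : ℕ}, m ≤ n → {c : ℂ | 3 < ‖P m c‖} ⊆ {c : ℂ | 3 < ‖P n c‖} := by
    intro m n hmn c hc
    simp only [mem_ofPred_eq] at hc ⊢
    by_contra hcon
    push Not at hcon
    have := norm_P_le_three_of_le hmn hcon
    linarith
  obtain ⟨N, hN⟩ := hK.elim_directed_cover _ hopen hcov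
    (fun i j => ⟨max i j, hmono (le_max_left _ _), hmono (le_max_right _ _)⟩)
  exact ⟨N, fun n hn c hc => hmono hn (hN hc)⟩

section green

variable {ψ : ℂ → ℂ} {b : ℕ → ℂ}

lemma continuousOn_psi_inv (h : Laurent ψ b) :
    ContinuousOn (fun w => ψ w⁻¹) (ball (0 : ℂ) 1 \ {0}) := by
  have h1 : ContinuousOn (fun w : ℂ => w⁻¹ + F b w) (ball (0 : ℂ) 1 \ {0}) := by
    apply ContinuousOn.add
    · exact continuousOn_inv₀.mono fun w hw => hw.2
    · exact (differentiableOn_F h).continuousOn.mono sdiff_subset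
  refine h1.congr fun w hw => ?_
  exact psi_inv_eq h hw.2 (by simpa using hw.1)

/-- Maximum principle: the potential of `ψ z` is at least `log ‖z‖`. -/
lemma escape_lower (h : Laurent ψ b) (hmap : ∀ z, 1 < ‖z‖ → ψ z ∉ M) {ρ : ℝ} (hρ : 1 < ρ) :
    ∃ N, ∀ n, N ≤ n → ∀ z : ℂ, ρ < ‖z‖ → (‖z‖ / ρ) ^ 2 ^ n ≤ ‖P (n + 1) (ψ z)‖ := by
  have hρ0 : 0 < ρ := by linarith
  have hρi : ρ⁻¹ < 1 := inv_lt_one_of_one_lt₀ hρ
  have hρi0 : 0 < ρ⁻¹ := inv_pos.2 hρ0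
  have hsub : sphere (0 : ℂ) ρ⁻¹ ⊆ ball (0 : ℂ) 1 \ {0} := by
    intro w hw
    rw [mem_sphere_zero_iff_norm] at hw
    refine ⟨by rw [mem_ball_zero_iff, hw]; exact hρi, ?_⟩
    intro h0
    rw [mem_singleton_iff] at h0
    rw [h0, norm_zero] at hw
    linarith
  have hK : IsCompact ((fun w => ψ w⁻¹) '' sphere (0 : ℂ) ρ⁻¹) :=
    (isCompact_sphere _ _).image_of_continuousOn ((continuousOn_psi_inv h).mono hsub)
  obtain ⟨N, hN⟩ := uniform_escape hK (by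
    rintro _ ⟨w, hw, rfl⟩
    apply hmap
    rw [norm_inv, mem_sphere_zero_iff_norm.1 hw, inv_inv]
    exact hρ)
  refine ⟨N, fun n hn z hz => ?_⟩
  have hz0 : 0 < ‖z‖ := by linarith
  -- maximum principle for `1 / R n` on the disc of radius `1 / ρ`
  have hcl : closure (ball (0 : ℂ) ρ⁻¹) = closedBall 0 ρ⁻¹ := closure_ball _ hρi0.ne'
  have hsub2 : closedBall (0 : ℂ) ρ⁻¹ ⊆ ball 0 1 := closedBall_subset_ball hρi
  have hd : DiffContOnCl ℂ (fun w => (R b n w)⁻¹) (ball (0 : ℂ) ρ⁻¹) := by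
    apply DifferentiableOn.diffContOnCl
    rw [hcl]
    exact ((differentiableOn_R h n).mono hsub2).inv fun w hw =>
      R_ne_zero h hmap (by simpa using hsub2 hw) n
  have hbd : ∀ w ∈ frontier (ball (0 : ℂ) ρ⁻¹), ‖(R b n w)⁻¹‖ ≤ ρ ^ 2 ^ n := by
    intro w hw
    rw [frontier_ball _ hρi0.ne'] at hw
    have hw' := mem_sphere_zero_iff_norm.1 hw
    have hw1 := hsub hw
    rw [R_eq h hw1.2 (by simpa using hw1.1), norm_inv, norm_mul, norm_pow, hw', mul_inv, inv_pow,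
      inv_inv]
    have h3 : 3 < ‖P (n + 1) (ψ w⁻¹)‖ := hN (n + 1) (by omega) _ ⟨w, hw, rfl⟩
    have h4 : ‖P (n + 1) (ψ w⁻¹)‖⁻¹ ≤ 1 := inv_le_one_of_one_le₀ (by linarith)
    calc ρ ^ 2 ^ n * ‖P (n + 1) (ψ w⁻¹)‖⁻¹ ≤ ρ ^ 2 ^ n * 1 := by gcongr
      _ = _ := mul_one _
  have hz1 : z⁻¹ ∈ closure (ball (0 : ℂ) ρ⁻¹) := by
    rw [hcl, mem_closedBall_zero_iff, norm_inv]
    exact inv_anti₀ hρ0 hz.le
  have hmain := Complex.norm_le_of_forall_mem_frontier_norm_le isBounded_ball hd hbd hz1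
  have hzi : ‖z⁻¹‖ < 1 := by
    rw [norm_inv]; exact inv_lt_one_of_one_lt₀ (by linarith)
  rw [R_eq h (inv_ne_zero (norm_pos_iff.1 hz0)) hzi, inv_inv, norm_inv, norm_mul, norm_pow,
    norm_inv, mul_inv, inv_pow, inv_inv] at hmain
  have hP0 : 0 < ‖P (n + 1) (ψ z)‖ := by
    rw [norm_pos_iff]
    intro h0
    exact hmap z (by linarith) (mem_M_of_P_eq_zero (by omega) h0)
  rw [div_pow, div_le_iff₀ (by positivity)]
  have h5 : ‖z‖ ^ 2 ^ n * ‖P (n + 1) (ψ z)‖⁻¹ * ‖P (n + 1) (ψ z)‖ ≤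
      ρ ^ 2 ^ n * ‖P (n + 1) (ψ z)‖ := by gcongr
  rw [mul_assoc, inv_mul_cancel₀ hP0.ne', mul_one] at h5
  linarith

lemma norm_P_add_le {c : ℂ} (hc : ‖c‖ ≤ 2) (n k : ℕ) :
    ‖P (n + k) c‖ + 2 ≤ (‖P n c‖ + 2) ^ 2 ^ k := by
  induction k with
  | zero => simp
  | succ k ih =>
    have h1 := norm_P_succ_le (n + k) c
    have h2 : (‖P (n + k) c‖ + 2) ^ 2 ≤ ((‖P n c‖ + 2) ^ 2 ^ k) ^ 2 :=
      pow_le_pow_left₀ (by positivity) ih 2
    rw [← pow_mul, ← pow_succ] at h2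
    have e : n + (k + 1) = n + k + 1 := by ring
    rw [e]
    nlinarith [norm_nonneg (P (n + k) c)]

lemma pow_le_norm_P (h : Laurent ψ b) (hmap : ∀ z, 1 < ‖z‖ → ψ z ∉ M) {z : ℂ} (hz : 1 < ‖z‖)
    (hc : ‖ψ z‖ ≤ 2) (n : ℕ) : ‖z‖ ^ 2 ^ n ≤ ‖P (n + 1) (ψ z)‖ + 2 := by
  have key : ∀ ρ, 1 < ρ → ρ < ‖z‖ → (‖z‖ / ρ) ^ 2 ^ n ≤ ‖P (n + 1) (ψ z)‖ + 2 := by
    intro ρ hρ hρz
    obtain ⟨N, hN⟩ := escape_lower h hmap hρ
    have h1 := hN (n + N) (by omega) z hρz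
    have h2 := norm_P_add_le hc (n + 1) N
    have e : n + N + 1 = n + 1 + N := by ring
    rw [e] at h1
    have h3 : ((‖z‖ / ρ) ^ 2 ^ n) ^ 2 ^ N ≤ (‖P (n + 1) (ψ z)‖ + 2) ^ 2 ^ N := by
      rw [← pow_mul, ← pow_add]
      linarith
    exact le_of_pow_le_pow_left₀ (by positivity) (by positivity) h3
  have hlim : Tendsto (fun ρ : ℝ => (‖z‖ / ρ) ^ 2 ^ n) (𝓝[>] 1) (𝓝 ((‖z‖ / 1) ^ 2 ^ n)) := by
    apply Tendsto.mono_left _ nhdsWithin_le_nhds
    exact (tendsto_const_nhds.div tendsto_id one_ne_zero).pow _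
  rw [div_one] at hlim
  apply le_of_tendsto hlim
  have : Ioo (1 : ℝ) ‖z‖ ∈ 𝓝[>] (1 : ℝ) := Ioo_mem_nhdsGT hz
  filter_upwards [this] with ρ hρ
  exact key ρ hρ.1 hρ.2

end green

end Pool.Agent.Work.MP_c6f924_an_laurent
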