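import Pool.Agent.Work.MP_c6f924_an_laurent.ThmB

set_option autoImplicit false

/-!
Lower bound for `∑ ‖b m‖ min 1 (m t)`.
-/

namespace Pool.Agent.Work.MP_c6f924_an_laurent

open Pool.Agent.Work.MP_c6f924_an
open Set Filter Metric Topology Bornology

lemma mul_log_le {t : ℝ} (ht : 0 < t) : t * Real.log (1 / t) ≤ 2 * √t := by
  have hs : 0 < √t := Real.sqrt_pos.2 ht
  have h1 : Real.log (1 / √t) ≤ 1 / √t := by
    have := Real.log_le_sub_one_of_pos (show 0 < 1 / √t by positivity)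
    linarith
  have h2 : Real.log (1 / t) = 2 * Real.log (1 / √t) := by
    have : 1 / t = (1 / √t) ^ 2 := by
      rw [div_pow, Real.sq_sqrt ht.le, one_pow]
    rw [this, Real.log_pow]
    norm_num
  rw [h2]
  have h3 : t = √t * √t := (Real.mul_self_sqrt ht.le).symm
  calc t * (2 * Real.log (1 / √t)) ≤ t * (2 * (1 / √t)) := by gcongr
    _ = 2 * (√t * √t) / √t := by rw [Real.mul_self_sqrt ht.le]; ring
    _ = 2 * √t := by field_simp

lemma log_two_le {t : ℝ} (ht : 0 < t) (ht2 : t ≤ 1 / 2) : Real.log 2 ≤ Real.log (1 / t) := by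
  apply Real.log_le_log (by norm_num)
  rw [le_div_iff₀ ht]
  linarith

/-- Absorbing an error term `A t` and passing from small `t` to all `t ≤ 1 / 2`. -/
lemma absorb {κ₀ A : ℝ} (hκ₀ : 0 < κ₀) (hA : 0 ≤ A) : ∃ κ : ℝ, 0 < κ ∧
    ∀ Q : ℝ → ℝ → Prop, (∀ s t x y, 0 < s → s ≤ t → y ≤ x → Q s x → Q t y) →
    (∀ t, 0 < t → t ≤ 1 / 2 → Q t (κ₀ / Real.log (1 / t) - A * t)) →
    ∀ t, 0 < t → t ≤ 1 / 2 → Q t (κ / Real.log (1 / t)) := by
  set t₀ : ℝ := min (1 / 2) ((κ₀ / (4 * (A + 1))) ^ 2) with ht₀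
  have ht₀0 : 0 < t₀ := lt_min (by norm_num) (by positivity)
  have ht₀2 : t₀ ≤ 1 / 2 := min_le_left _ _
  have hl2 : 0 < Real.log 2 := Real.log_pos (by norm_num)
  have hL₀ : 0 < Real.log (1 / t₀) := hl2.trans_le (log_two_le ht₀0 ht₀2)
  refine ⟨min (κ₀ / 2) (κ₀ * Real.log 2 / (2 * Real.log (1 / t₀))),
    lt_min (by positivity) (by positivity), ?_⟩
  intro Q hQ hmain t ht ht2
  have key : ∀ t, 0 < t → t ≤ t₀ → Q t (κ₀ / 2 / Real.log (1 / t)) := by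
    intro t ht htt
    have hL : 0 < Real.log (1 / t) := hl2.trans_le (log_two_le ht (htt.trans ht₀2))
    refine hQ t t _ _ ht le_rfl ?_ (hmain t ht (htt.trans ht₀2))
    have h1 : t * Real.log (1 / t) ≤ κ₀ / (2 * (A + 1)) := by
      refine (mul_log_le ht).trans ?_
      have h2 : √t ≤ κ₀ / (4 * (A + 1)) := by
        rw [← Real.sqrt_sq (show 0 ≤ κ₀ / (4 * (A + 1)) by positivity)]
        exact Real.sqrt_le_sqrt (htt.trans (min_le_right _ _))
      calc 2 * √t ≤ 2 * (κ₀ / (4 * (A + 1))) := by gcongr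
        _ = κ₀ / (2 * (A + 1)) := by field_simp; norm_num
    have h3 : A * t ≤ κ₀ / 2 / Real.log (1 / t) := by
      rw [le_div_iff₀ hL]
      calc A * t * Real.log (1 / t) = A * (t * Real.log (1 / t)) := by ring
        _ ≤ A * (κ₀ / (2 * (A + 1))) := by gcongr
        _ = κ₀ / 2 * (A / (A + 1)) := by field_simp
        _ ≤ κ₀ / 2 * 1 := by
          gcongr
          rw [div_le_one (by positivity)]
          linarith
        _ = _ := mul_one _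
    have h4 : κ₀ / Real.log (1 / t) = κ₀ / 2 / Real.log (1 / t) + κ₀ / 2 / Real.log (1 / t) := by
      ring
    linarith
  have hL : 0 < Real.log (1 / t) := hl2.trans_le (log_two_le ht ht2)
  by_cases htt : t ≤ t₀
  · refine hQ t t _ _ ht le_rfl ?_ (key t ht htt)
    gcongr
    exact min_le_left _ _
  · push Not at htt
    refine hQ t₀ t _ _ ht₀0 htt.le ?_ (key t₀ ht₀0 le_rfl)
    calc min (κ₀ / 2) (κ₀ * Real.log 2 / (2 * Real.log (1 / t₀))) / Real.log (1 / t)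
        ≤ (κ₀ * Real.log 2 / (2 * Real.log (1 / t₀))) / Real.log 2 := by
          gcongr
          · exact min_le_right _ _
          · rw [le_div_iff₀ ht]
            linarith
      _ = κ₀ / 2 / Real.log (1 / t₀) := by field_simp

lemma one_sub_pow_le {t : ℝ} (ht : 0 < t) (m : ℕ) :
    1 - (1 + t)⁻¹ ^ m ≤ min 1 ((m : ℝ) * t) := by
  apply le_min
  · have : 0 ≤ (1 + t)⁻¹ ^ m := by positivity
    linarith
  · have h0 : 0 < (1 + t)⁻¹ := by positivity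
    have h1 : 1 - t ≤ (1 + t)⁻¹ := by
      rw [← one_div, le_div_iff₀ (by positivity)]
      nlinarith
    have h2 := one_add_mul_le_pow (show -2 ≤ (1 + t)⁻¹ - 1 by linarith) m
    rw [add_sub_cancel] at h2
    have h3 : (m : ℝ) * (1 - (1 + t)⁻¹) ≤ (m : ℝ) * t := by
      gcongr
      linarith
    linarith

section

variable {ψ : ℂ → ℂ} {b : ℕ → ℂ}

lemma lower_of_summable {κ₀ : ℝ} (hB : ∀ (ψ : ℂ → ℂ) (b : ℕ → ℂ), Laurent ψ b →
    (∀ z, 1 < ‖z‖ → ψ z ∉ M) → ∀ z : ℂ, 1 < ‖z‖ → ‖z‖ ≤ 3 / 2 →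
    κ₀ / Real.log (1 / (‖z‖ - 1)) ≤ ‖ψ z + 3 / 4‖) (h : Laurent ψ b)
    (hmap : ∀ z, 1 < ‖z‖ → ψ z ∉ M) (hsurj : Mᶜ ⊆ ψ '' {z | 1 < ‖z‖})
    (hb : Summable fun m => ‖b m‖) {t : ℝ} (ht : 0 < t) (ht2 : t ≤ 1 / 2) :
    κ₀ / Real.log (1 / t) ≤ t + ∑' m : ℕ, ‖b m‖ * min 1 ((m : ℝ) * t) := by
  set Ψ : ℂ → ℂ := fun z => z + ∑' m : ℕ, b m * z⁻¹ ^ m with hΨ
  have hle : ∀ (m : ℕ) (z : ℂ), 1 ≤ ‖z‖ → ‖b m * z⁻¹ ^ m‖ ≤ ‖b m‖ := by
    intro m z hz
    rw [norm_mul, norm_pow, norm_inv]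
    have : ‖z‖⁻¹ ^ m ≤ 1 := pow_le_one₀ (by positivity) (inv_le_one_of_one_le₀ hz)
    calc ‖b m‖ * ‖z‖⁻¹ ^ m ≤ ‖b m‖ * 1 := by gcongr
      _ = _ := mul_one _
  have hcont : ContinuousOn Ψ {z | 1 ≤ ‖z‖} := by
    apply continuousOn_id.add
    apply continuousOn_tsum _ hb (fun m z hz => hle m z hz)
    intro m
    apply ContinuousOn.mul continuousOn_const
    apply ContinuousOn.pow
    apply continuousOn_inv₀.mono
    intro z hz h0
    have hz' : 1 ≤ ‖z‖ := hz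
    rw [h0, norm_zero] at hz'
    linarith
  have heq : ∀ z, 1 < ‖z‖ → Ψ z = ψ z := by
    intro z hz
    rw [hΨ]
    simp only
    rw [(h z hz).tsum_eq]
    ring
  obtain ⟨u, hu, huΨ⟩ := exists_boundary h hmap hsurj hcont heq
  have hu0 : u ≠ 0 := by
    rw [← norm_pos_iff, hu]; exact one_pos
  set z : ℂ := (1 + t : ℝ) * u with hz
  have hznorm : ‖z‖ = 1 + t := by
    rw [hz, norm_mul, hu, mul_one, Complex.norm_real, Real.norm_eq_abs, abs_of_pos (by linarith)]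
  have hz1 : 1 < ‖z‖ := by rw [hznorm]; linarith
  have h1 := hB ψ b h hmap z hz1 (by rw [hznorm]; linarith)
  have e1 : ‖z‖ - 1 = t := by rw [hznorm]; ring
  rw [e1] at h1
  refine h1.trans ?_
  have e2 : ψ z + 3 / 4 = (z - u) + ∑' m : ℕ, (b m * z⁻¹ ^ m - b m * u⁻¹ ^ m) := by
    have s1 : Summable fun m : ℕ => b m * z⁻¹ ^ m :=
      Summable.of_norm_bounded hb fun m => hle m z hz1.le
    have s2 : Summable fun m : ℕ => b m * u⁻¹ ^ m :=
      Summable.of_norm_bounded hb fun m => hle m u hu.ge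
    rw [s1.tsum_sub s2, ← heq z hz1]
    have e3 : Ψ z = z + ∑' m : ℕ, b m * z⁻¹ ^ m := rfl
    have e4 : u + ∑' m : ℕ, b m * u⁻¹ ^ m = -3 / 4 := huΨ
    rw [e3]
    linear_combination e4
  rw [e2]
  have e5 : ‖z - u‖ = t := by
    have : z - u = (t : ℂ) * u := by
      rw [hz]; push_cast; ring
    rw [this, norm_mul, hu, mul_one, Complex.norm_real, Real.norm_eq_abs, abs_of_pos ht]
  refine (norm_add_le _ _).trans ?_
  rw [e5]
  gcongr
  have hs : Summable fun m : ℕ => ‖b m‖ * min 1 ((m : ℝ) * t) := by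
    refine Summable.of_nonneg_of_le (fun m => by positivity) (fun m => ?_) hb
    calc ‖b m‖ * min 1 ((m : ℝ) * t) ≤ ‖b m‖ * 1 := by gcongr; exact min_le_left _ _
      _ = _ := mul_one _
  apply tsum_of_norm_bounded hs.hasSum
  intro m
  have e6 : b m * z⁻¹ ^ m - b m * u⁻¹ ^ m = -(b m * u⁻¹ ^ m * (1 - ((1 + t)⁻¹ ^ m : ℝ))) := by
    rw [hz, mul_inv, mul_pow]
    push_cast
    ring
  rw [e6, norm_neg, norm_mul, norm_mul, norm_pow, norm_inv, hu, inv_one, one_pow, mul_one]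
  gcongr
  have h3 : (1 : ℂ) - ((1 + t)⁻¹ ^ m : ℝ) = ((1 - (1 + t)⁻¹ ^ m : ℝ) : ℂ) := by push_cast; ring
  rw [h3, Complex.norm_real, Real.norm_eq_abs, abs_of_nonneg]
  · exact one_sub_pow_le ht m
  · have : (1 + t)⁻¹ ^ m ≤ 1 := pow_le_one₀ (by positivity) (inv_le_one_of_one_le₀ (by linarith))
    linarith

end

/-- **Part 1.** -/
theorem part1 : ∃ κ : ℝ, 0 < κ ∧ ∀ (ψ : ℂ → ℂ) (b : ℕ → ℂ), Laurent ψ b →
    (∀ z, 1 < ‖z‖ → ψ z ∉ M) → Mᶜ ⊆ ψ '' {z | 1 < ‖z‖} → ∀ t : ℝ, 0 < t → t ≤ 1 / 2 →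
    ENNReal.ofReal (κ / Real.log (1 / t)) ≤
      ∑' m : ℕ, ENNReal.ofReal (‖b m‖ * min 1 ((m : ℝ) * t)) := by
  obtain ⟨κ₀, hκ₀, hB⟩ := thmB
  obtain ⟨κ, hκ, habs⟩ := absorb (κ₀ := κ₀) (A := 1) hκ₀ zero_le_one
  refine ⟨κ, hκ, fun ψ b h hmap hsurj t ht ht2 => ?_⟩
  by_cases hfin : ∑' m : ℕ, ENNReal.ofReal (‖b m‖ * min 1 ((m : ℝ) * t)) = ⊤
  · rw [hfin]; exact le_top
  have hs0 : Summable fun m : ℕ => ‖b m‖ * min 1 ((m : ℝ) * t) := by
    have h1 := ENNReal.summable_toReal hfin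
    refine h1.congr fun m => ?_
    rw [ENNReal.toReal_ofReal (by positivity)]
  have hb : Summable fun m : ℕ => ‖b m‖ := by
    rw [← summable_nat_add_iff 1] at hs0 ⊢
    refine Summable.of_nonneg_of_le (fun m => norm_nonneg _) (fun m => ?_) (hs0.mul_left t⁻¹)
    have h2 : t ≤ min 1 (((m + 1 : ℕ) : ℝ) * t) := by
      apply le_min (by linarith)
      push_cast
      nlinarith [Nat.cast_nonneg (α := ℝ) m]
    calc ‖b (m + 1)‖ = t⁻¹ * (‖b (m + 1)‖ * t) := by field_simp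
      _ ≤ _ := by gcongr
  have hs : ∀ t : ℝ, 0 < t → Summable fun m : ℕ => ‖b m‖ * min 1 ((m : ℝ) * t) := by
    intro t ht
    refine Summable.of_nonneg_of_le (fun m => by positivity) (fun m => ?_) hb
    calc ‖b m‖ * min 1 ((m : ℝ) * t) ≤ ‖b m‖ * 1 := by gcongr; exact min_le_left _ _
      _ = _ := mul_one _
  have h3 : κ / Real.log (1 / t) ≤ ∑' m : ℕ, ‖b m‖ * min 1 ((m : ℝ) * t) := by
    refine habs (fun t x => x ≤ ∑' m : ℕ, ‖b m‖ * min 1 ((m : ℝ) * t)) ?_ ?_ t ht ht2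
    · intro s t x y hs0 hst hyx hx
      refine hyx.trans (hx.trans ?_)
      refine (hs s hs0).tsum_le_tsum (fun m => ?_) (hs t (hs0.trans_le hst))
      gcongr
    · intro t ht ht2
      have := lower_of_summable hB h hmap hsurj hb ht ht2
      linarith
  rw [← ENNReal.ofReal_tsum_of_nonneg (fun m => by positivity) (hs t ht)]
  exact ENNReal.ofReal_le_ofReal h3

end Pool.Agent.Work.MP_c6f924_an_laurent
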