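import Mathlib

set_option autoImplicit false

/-!
Consequences of the lower bound for `∑ ‖b m‖ min 1 (m t)`.
-/

namespace Pool.Agent.Work.MP_c6f924_an_laurent

open Set Filter Metric Topology

section

variable {b : ℕ → ℂ} {κ : ℝ}

lemma summable_min (hb : Summable fun m => ‖b m‖) {t : ℝ} (ht : 0 < t) :
    Summable fun m : ℕ => ‖b m‖ * min 1 ((m : ℝ) * t) := by
  refine Summable.of_nonneg_of_le (fun m => by positivity) (fun m => ?_) hb
  calc ‖b m‖ * min 1 ((m : ℝ) * t) ≤ ‖b m‖ * 1 := by gcongr; exact min_le_left _ _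
    _ = _ := mul_one _

lemma real_form (hb : Summable fun m => ‖b m‖)
    (h : ∀ t : ℝ, 0 < t → t ≤ 1 / 2 → ENNReal.ofReal (κ / Real.log (1 / t)) ≤
      ∑' m : ℕ, ENNReal.ofReal (‖b m‖ * min 1 ((m : ℝ) * t))) {t : ℝ} (ht : 0 < t)
    (ht2 : t ≤ 1 / 2) :
    κ / Real.log (1 / t) ≤ ∑' m : ℕ, ‖b m‖ * min 1 ((m : ℝ) * t) := by
  have h1 := h t ht ht2
  rw [← ENNReal.ofReal_tsum_of_nonneg (fun m => by positivity) (summable_min hb ht)] at h1
  exact (ENNReal.ofReal_le_ofReal_iff (tsum_nonneg fun m => by positivity)).1 h1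

lemma tail_lower0 (hb : Summable fun m => ‖b m‖)
    (h : ∀ t : ℝ, 0 < t → t ≤ 1 / 2 → ENNReal.ofReal (κ / Real.log (1 / t)) ≤
      ∑' m : ℕ, ENNReal.ofReal (‖b m‖ * min 1 ((m : ℝ) * t))) {N : ℕ} (hN : 2 ≤ N) :
    κ / (2 * Real.log N) ≤ (∑' m, ‖b m‖) / N + ∑' m, ‖b (m + N)‖ := by
  have hN0 : (2 : ℝ) ≤ N := by exact_mod_cast hN
  have hN1 : (0 : ℝ) < N := by linarith
  have ht : (0 : ℝ) < 1 / (N : ℝ) ^ 2 := by positivity
  have ht2 : 1 / (N : ℝ) ^ 2 ≤ 1 / 2 := by
    apply one_div_le_one_div_of_le (by norm_num)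
    nlinarith
  have h1 := real_form hb h ht ht2
  rw [one_div_one_div, Real.log_pow] at h1
  push_cast at h1
  refine h1.trans ?_
  rw [← (summable_min hb ht).sum_add_tsum_nat_add N]
  have h2 : Summable fun m => ‖b (m + N)‖ := (summable_nat_add_iff N).2 hb
  apply add_le_add
  · calc ∑ m ∈ Finset.range N, ‖b m‖ * min 1 ((m : ℝ) * (1 / (N : ℝ) ^ 2))
        ≤ ∑ m ∈ Finset.range N, ‖b m‖ * (1 / N) := by
          apply Finset.sum_le_sum
          intro m hm
          rw [Finset.mem_range] at hm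
          have hm' : (m : ℝ) ≤ N := by exact_mod_cast hm.le
          gcongr
          refine (min_le_right _ _).trans ?_
          calc (m : ℝ) * (1 / (N : ℝ) ^ 2) ≤ N * (1 / (N : ℝ) ^ 2) := by gcongr
            _ = 1 / (N : ℝ) := by field_simp
      _ = (∑ m ∈ Finset.range N, ‖b m‖) / N := by rw [← Finset.sum_mul]; ring
      _ ≤ (∑' m, ‖b m‖) / N := by
          gcongr
          exact hb.sum_le_tsum _ fun m _ => norm_nonneg _
  · refine ((summable_nat_add_iff N).2 (summable_min hb ht)).tsum_le_tsum (fun m => ?_) h2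
    calc ‖b (m + N)‖ * min 1 (((m + N : ℕ) : ℝ) * (1 / (N : ℝ) ^ 2)) ≤ ‖b (m + N)‖ * 1 := by
          gcongr; exact min_le_left _ _
      _ = _ := mul_one _

lemma tail_lower (hκ : 0 < κ) (hb : Summable fun m => ‖b m‖)
    (h : ∀ t : ℝ, 0 < t → t ≤ 1 / 2 → ENNReal.ofReal (κ / Real.log (1 / t)) ≤
      ∑' m : ℕ, ENNReal.ofReal (‖b m‖ * min 1 ((m : ℝ) * t))) :
    ∀ᶠ N : ℕ in atTop, κ / (4 * Real.log N) ≤ ∑' m, ‖b (m + N)‖ := by
  have h1 : Tendsto (fun N : ℕ => (∑' m, ‖b m‖) * (Real.log N / N)) atTop (𝓝 0) := by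
    have h2 : Tendsto (fun x : ℝ => Real.log x / x) atTop (𝓝 0) := by
      have := Real.isLittleO_log_id_atTop.tendsto_div_nhds_zero
      simpa using this
    have := (h2.comp tendsto_natCast_atTop_atTop).const_mul (∑' m, ‖b m‖)
    simpa using this
  have h3 : ∀ᶠ N : ℕ in atTop, (∑' m, ‖b m‖) * (Real.log N / N) < κ / 4 :=
    h1.eventually_lt_const (by positivity)
  filter_upwards [h3, eventually_ge_atTop 2] with N hN hN2
  have hN0 : (2 : ℝ) ≤ N := by exact_mod_cast hN2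
  have hl : 0 < Real.log N := Real.log_pos (by linarith)
  have h4 := tail_lower0 hb h hN2
  have h5 : (∑' m, ‖b m‖) / N ≤ κ / (4 * Real.log N) := by
    have e : κ / (4 * Real.log N) = (κ / 4) / Real.log N := by field_simp
    rw [e, le_div_iff₀ hl]
    calc (∑' m, ‖b m‖) / N * Real.log N = (∑' m, ‖b m‖) * (Real.log N / N) := by ring
      _ ≤ _ := hN.le
  have e2 : κ / (2 * Real.log N) = κ / (4 * Real.log N) + κ / (4 * Real.log N) := by
    field_simp; norm_num
  linarith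

theorem part2 (hκ : 0 < κ)
    (h : ∀ t : ℝ, 0 < t → t ≤ 1 / 2 → ENNReal.ofReal (κ / Real.log (1 / t)) ≤
      ∑' m : ℕ, ENNReal.ofReal (‖b m‖ * min 1 ((m : ℝ) * t))) :
    ¬ Summable fun m : ℕ => ‖b m‖ * Real.log m := by
  intro hs
  have hb : Summable fun m => ‖b m‖ := by
    rw [← summable_nat_add_iff 3]
    refine Summable.of_nonneg_of_le (fun m => norm_nonneg _) (fun m => ?_)
      ((summable_nat_add_iff 3).2 hs)
    have h1 : 1 ≤ Real.log ((m + 3 : ℕ) : ℝ) := by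
      rw [← Real.log_exp 1]
      apply Real.log_le_log (Real.exp_pos 1)
      push_cast
      have := Real.exp_one_lt_d9
      have := Nat.cast_nonneg (α := ℝ) m
      linarith
    calc ‖b (m + 3)‖ = ‖b (m + 3)‖ * 1 := (mul_one _).symm
      _ ≤ _ := by gcongr
  have h1 := tail_lower hκ hb h
  have h2 : Tendsto (fun N : ℕ => ∑' m : ℕ, ‖b (m + N)‖ * Real.log ((m + N : ℕ) : ℝ)) atTop
      (𝓝 0) := tendsto_sum_nat_add fun m : ℕ => ‖b m‖ * Real.log m
  have h3 : ∀ᶠ N : ℕ in atTop,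
      ∑' m : ℕ, ‖b (m + N)‖ * Real.log ((m + N : ℕ) : ℝ) < κ / 4 :=
    h2.eventually_lt_const (by positivity)
  obtain ⟨N, hN1, hN2, hN3⟩ := (h1.and (h3.and (eventually_ge_atTop 2))).exists
  have hN0 : (2 : ℝ) ≤ N := by exact_mod_cast hN3
  have hl : 0 < Real.log N := Real.log_pos (by linarith)
  have h4 : (∑' m, ‖b (m + N)‖) * Real.log N ≤
      ∑' m : ℕ, ‖b (m + N)‖ * Real.log ((m + N : ℕ) : ℝ) := by
    rw [← tsum_mul_right]
    refine (((summable_nat_add_iff N).2 hb).mul_right _).tsum_le_tsum (fun m => ?_)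
      ((summable_nat_add_iff N).2 hs)
    gcongr
    have := Nat.cast_nonneg (α := ℝ) m
    linarith
  have h5 : κ / 4 ≤ (∑' m, ‖b (m + N)‖) * Real.log N := by
    have e : κ / (4 * Real.log N) = (κ / 4) / Real.log N := by field_simp
    rwa [e, div_le_iff₀ hl] at hN1
  linarith

/-- telescoping bound -/
lemma inv_mul_log_sq_le {m : ℕ} (hm : 3 ≤ m) :
    1 / ((m : ℝ) * Real.log m ^ 2) ≤ 1 / Real.log ((m - 1 : ℕ) : ℝ) - 1 / Real.log m := by
  have hm3 : (3 : ℝ) ≤ m := by exact_mod_cast hm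
  have hm1 : (((m - 1 : ℕ) : ℝ)) = m - 1 := by
    rw [Nat.cast_sub (by omega)]; norm_num
  rw [hm1]
  have hl1 : 0 < Real.log ((m : ℝ) - 1) := Real.log_pos (by linarith)
  have hl : 0 < Real.log (m : ℝ) := Real.log_pos (by linarith)
  have hll : Real.log ((m : ℝ) - 1) ≤ Real.log m := Real.log_le_log (by linarith) (by linarith)
  have h1 : 1 / (m : ℝ) ≤ Real.log m - Real.log ((m : ℝ) - 1) := by
    rw [← Real.log_div (by linarith) (by linarith)]
    have := Real.one_sub_inv_le_log_of_pos (show 0 < (m : ℝ) / (m - 1) by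
      apply div_pos <;> linarith)
    refine le_trans (le_of_eq ?_) this
    rw [inv_div]
    field_simp
    ring
  have e : 1 / Real.log ((m : ℝ) - 1) - 1 / Real.log m =
      (Real.log m - Real.log ((m : ℝ) - 1)) / (Real.log ((m : ℝ) - 1) * Real.log m) := by
    field_simp
  rw [e]
  calc 1 / ((m : ℝ) * Real.log m ^ 2) = (1 / m) / (Real.log m * Real.log m) := by
        field_simp
    _ ≤ (Real.log m - Real.log ((m : ℝ) - 1)) / (Real.log ((m : ℝ) - 1) * Real.log m) := by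
        gcongr

lemma sum_tail_le (N : ℕ) (hN : 3 ≤ N) (n : ℕ) :
    ∑ m ∈ Finset.range n, 1 / (((m + N : ℕ) : ℝ) * Real.log ((m + N : ℕ) : ℝ) ^ 2) ≤
      1 / Real.log ((N - 1 : ℕ) : ℝ) - 1 / Real.log ((n + N - 1 : ℕ) : ℝ) := by
  induction n with
  | zero => simp
  | succ n ih =>
    rw [Finset.sum_range_succ]
    have h1 := inv_mul_log_sq_le (m := n + N) (by omega)
    have e : n + 1 + N - 1 = n + N := by omega
    rw [e]
    linarith

theorem part3 (hκ : 0 < κ)
    (h : ∀ t : ℝ, 0 < t → t ≤ 1 / 2 → ENNReal.ofReal (κ / Real.log (1 / t)) ≤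
      ∑' m : ℕ, ENNReal.ofReal (‖b m‖ * min 1 ((m : ℝ) * t))) :
    ∃ᶠ m : ℕ in atTop, κ / 8 / (m * Real.log m ^ 2) ≤ ‖b m‖ := by
  intro hcon
  simp only [not_le] at hcon
  obtain ⟨N₀, hN₀⟩ := eventually_atTop.1 hcon
  have key : ∀ N, N₀ ≤ N → 3 ≤ N → (Summable fun m => ‖b (m + N)‖) ∧
      ∑' m, ‖b (m + N)‖ ≤ κ / 8 * (1 / Real.log ((N - 1 : ℕ) : ℝ)) := by
    intro N hN hN3
    have hbd : ∀ n, ∑ m ∈ Finset.range n, ‖b (m + N)‖ ≤
        κ / 8 * (1 / Real.log ((N - 1 : ℕ) : ℝ)) := by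
      intro n
      have h1 := sum_tail_le N hN3 n
      have h2 : 0 ≤ 1 / Real.log ((n + N - 1 : ℕ) : ℝ) := by
        apply one_div_nonneg.2
        apply Real.log_nonneg
        have : 1 ≤ n + N - 1 := by omega
        exact_mod_cast this
      calc ∑ m ∈ Finset.range n, ‖b (m + N)‖
          ≤ ∑ m ∈ Finset.range n,
              κ / 8 * (1 / (((m + N : ℕ) : ℝ) * Real.log ((m + N : ℕ) : ℝ) ^ 2)) := by
            apply Finset.sum_le_sum
            intro m _
            rw [mul_one_div]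
            exact (hN₀ (m + N) (by omega)).le
        _ = κ / 8 * ∑ m ∈ Finset.range n,
              (1 / (((m + N : ℕ) : ℝ) * Real.log ((m + N : ℕ) : ℝ) ^ 2)) := by
            rw [← Finset.mul_sum]
        _ ≤ _ := by
            gcongr
            linarith
    exact ⟨summable_of_sum_range_le (fun m => norm_nonneg _) hbd,
      Real.tsum_le_of_sum_range_le (fun m => norm_nonneg _) hbd⟩
  have hb : Summable fun m => ‖b m‖ := by
    rw [← summable_nat_add_iff (max N₀ 3)]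
    exact (key _ (le_max_left _ _) (le_max_right _ _)).1
  obtain ⟨N, hN1, hN2, hN3⟩ := ((tail_lower hκ hb h).and
    ((eventually_ge_atTop N₀).and (eventually_ge_atTop 4))).exists
  have h5 := (key N hN2 (by omega)).2
  have hN4 : (4 : ℝ) ≤ N := by exact_mod_cast hN3
  have hm1 : (((N - 1 : ℕ) : ℝ)) = N - 1 := by
    rw [Nat.cast_sub (by omega)]; norm_num
  rw [hm1] at h5
  have hl1 : 0 < Real.log ((N : ℝ) - 1) := Real.log_pos (by linarith)
  have hl : 0 < Real.log (N : ℝ) := Real.log_pos (by linarith)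
  have h6 : Real.log N < 2 * Real.log ((N : ℝ) - 1) := by
    have : (2 : ℝ) * Real.log ((N : ℝ) - 1) = Real.log (((N : ℝ) - 1) ^ 2) := by
      rw [Real.log_pow]; norm_num
    rw [this]
    apply Real.log_lt_log (by linarith)
    nlinarith
  have h7 : κ / 8 * (1 / Real.log ((N : ℝ) - 1)) < κ / (4 * Real.log N) := by
    rw [mul_one_div, div_div, div_lt_div_iff₀ (by positivity) (by positivity)]
    nlinarith
  linarith

end

end Pool.Agent.Work.MP_c6f924_an_laurent
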