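import Pool.Agent.Work.MP_c6f924_an.Orbit

set_option autoImplicit false

/-!
Slow escape of the critical orbit for parameters near `-3/4`, and `-3/4` is in the closure of the
complement of the Mandelbrot set.
-/

namespace Pool.Agent.Work.MP_c6f924_an_laurent

open Pool.Agent.Work.MP_c6f924_an
open Set Filter Metric Topology Bornology

/-- The even critical orbit of `z ↦ z ^ 2 - 3 / 4`, seen from the parabolic point. -/
noncomputable def xs : ℕ → ℝ
  | 0 => 1 / 2
  | j + 1 => xs j - 2 * xs j ^ 3 + xs j ^ 4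

lemma xs_bounds (j : ℕ) : 0 < xs j ∧ xs j ≤ 1 / 2 := by
  induction j with
  | zero => norm_num [xs]
  | succ j ih =>
    obtain ⟨h0, h1⟩ := ih
    have h2 : 0 < xs j ^ 2 := by positivity
    have h3 : xs j ^ 2 ≤ 1 / 4 := by nlinarith
    have e : xs (j + 1) = xs j * (1 - 2 * xs j ^ 2 + xs j * xs j ^ 2) := by
      simp only [xs]; ring
    rw [e]
    constructor
    · apply mul_pos h0
      nlinarith [mul_pos h0 h2]
    · have : 1 - 2 * xs j ^ 2 + xs j * xs j ^ 2 ≤ 1 := by nlinarith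
      nlinarith

lemma xs_anti (j : ℕ) : xs (j + 1) ≤ xs j := by
  obtain ⟨h0, h1⟩ := xs_bounds j
  have e : xs (j + 1) = xs j - xs j ^ 3 * (2 - xs j) := by
    simp only [xs]; ring
  rw [e]
  have : 0 ≤ xs j ^ 3 * (2 - xs j) := mul_nonneg (by positivity) (by linarith)
  linarith

lemma xs_antitone : Antitone xs := antitone_nat_of_succ_le xs_anti

lemma xs_ge (j : ℕ) : 1 / ((j : ℝ) + 4) ≤ xs j := by
  induction j with
  | zero => norm_num [xs]
  | succ j ih =>
    obtain ⟨h0, h1⟩ := xs_bounds j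
    set m : ℝ := (j : ℝ) + 4 with hm
    have hm4 : 4 ≤ m := by rw [hm]; have : (0 : ℝ) ≤ j := Nat.cast_nonneg j; linarith
    have hm0 : 0 < m := by linarith
    have hgoal : ((j + 1 : ℕ) : ℝ) + 4 = m + 1 := by rw [hm]; push_cast; ring
    rw [hgoal]
    have e : xs (j + 1) = xs j * (1 - 2 * xs j ^ 2) + xs j ^ 4 := by
      simp only [xs]; ring
    have h4 : 0 ≤ xs j ^ 4 := by positivity
    by_cases hx : 2 / 5 ≤ xs j
    · have hle : 1 / (m + 1) ≤ 1 / 5 := by
        apply one_div_le_one_div_of_le <;> linarith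
      have : 1 / 5 ≤ xs j * (1 - 2 * xs j ^ 2) := by
        have h5 : 1 / 2 ≤ 1 - 2 * xs j ^ 2 := by nlinarith
        nlinarith
      rw [e]; linarith
    · push Not at hx
      set t : ℝ := 1 / m with ht
      have ht0 : 0 < t := by positivity
      have ht4 : t ≤ 1 / 4 := by
        rw [ht]; apply one_div_le_one_div_of_le <;> linarith
      have hmt : m * t = 1 := by rw [ht]; field_simp
      have h6 : t * (1 - 2 * t ^ 2) ≤ xs j * (1 - 2 * xs j ^ 2) := by
        have : 0 ≤ (xs j - t) * (1 - 2 * (xs j ^ 2 + xs j * t + t ^ 2)) := by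
          apply mul_nonneg (by linarith)
          nlinarith
        nlinarith
      have h7 : 1 / (m + 1) ≤ t * (1 - 2 * t ^ 2) := by
        rw [div_le_iff₀ (by linarith)]
        -- 1 ≤ t (1 - 2 t^2) (m + 1) = (1 - 2 t^2) (1 + t)
        have : t * (1 - 2 * t ^ 2) * (m + 1) = (1 - 2 * t ^ 2) * (1 + t) := by
          have : t * (1 - 2 * t ^ 2) * (m + 1) = (1 - 2 * t ^ 2) * (m * t + t) := by ring
          rw [this, hmt]
        rw [this]
        nlinarith
      rw [e]; linarith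

lemma xs_tendsto : Tendsto xs atTop (𝓝 0) := by
  have hb : BddBelow (range xs) := ⟨0, by rintro _ ⟨j, rfl⟩; exact (xs_bounds j).1.le⟩
  have h := tendsto_atTop_ciInf xs_antitone hb
  set L := ⨅ j, xs j with hL
  have h' : Tendsto (fun j => xs (j + 1)) atTop (𝓝 L) := (tendsto_add_atTop_iff_nat 1).2 h
  have h'' : Tendsto (fun j => xs j - 2 * xs j ^ 3 + xs j ^ 4) atTop
      (𝓝 (L - 2 * L ^ 3 + L ^ 4)) := (h.sub ((h.pow 3).const_mul 2)).add (h.pow 4)
  have e := tendsto_nhds_unique h' h''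
  have hL0 : 0 ≤ L := le_ciInf fun j => (xs_bounds j).1.le
  have hL1 : L ≤ 1 / 2 := (ciInf_le hb 0).trans (xs_bounds 0).2
  have : L ^ 3 * (2 - L) = 0 := by linarith
  rcases mul_eq_zero.1 this with h0 | h0
  · have : L = 0 := by simpa using h0
    rwa [this] at h
  · linarith

/-- value of the critical orbit at `-3/4` -/
lemma P_even (j : ℕ) : P (2 * j) (-3 / 4 : ℂ) = (xs j : ℂ) - 1 / 2 := by
  induction j with
  | zero => simp [P_zero, xs]
  | succ j ih =>
    have : 2 * (j + 1) = 2 * j + 1 + 1 := by ring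
    rw [this, P_succ, P_succ, ih]
    simp only [xs]
    push_cast
    ring

lemma P_odd (j : ℕ) : P (2 * j + 1) (-3 / 4 : ℂ) = -(xs j : ℂ) + (xs j : ℂ) ^ 2 - 1 / 2 := by
  rw [P_succ, P_even]
  ring

lemma norm_P_le_one (n : ℕ) : ‖P n (-3 / 4 : ℂ)‖ ≤ 1 := by
  rcases Nat.even_or_odd' n with ⟨j, rfl | rfl⟩
  · rw [P_even]
    obtain ⟨h0, h1⟩ := xs_bounds j
    have : ((xs j : ℂ) - 1 / 2) = ((xs j - 1 / 2 : ℝ) : ℂ) := by push_cast; ring
    rw [this, Complex.norm_real, Real.norm_eq_abs, abs_le]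
    constructor <;> linarith
  · rw [P_odd]
    obtain ⟨h0, h1⟩ := xs_bounds j
    have : (-(xs j : ℂ) + (xs j : ℂ) ^ 2 - 1 / 2) = ((-xs j + xs j ^ 2 - 1 / 2 : ℝ) : ℂ) := by
      push_cast; ring
    rw [this, Complex.norm_real, Real.norm_eq_abs, abs_le]
    constructor <;> nlinarith

/-- derivative of the critical orbit at `-3/4` -/
noncomputable def ys : ℕ → ℝ
  | 0 => 0
  | j + 1 => (1 - 6 * xs j ^ 2 + 4 * xs j ^ 3) * ys j + 2 * (xs j - xs j ^ 2)

lemma hasDerivAt_P_even (j : ℕ) : HasDerivAt (P (2 * j)) (-(ys j : ℂ)) (-3 / 4 : ℂ) := by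
  induction j with
  | zero =>
    have : P (2 * 0) = fun _ => 0 := by funext c; exact P_zero c
    rw [this]; simpa [ys] using hasDerivAt_const (-3 / 4 : ℂ) (0 : ℂ)
  | succ j ih =>
    have e1 : P (2 * j + 1) = fun c => P (2 * j) c ^ 2 + c := by funext c; exact P_succ _ c
    have e2 : P (2 * (j + 1)) = fun c => P (2 * j + 1) c ^ 2 + c := by
      funext c; exact P_succ _ c
    have h1 : HasDerivAt (P (2 * j + 1)) (2 * P (2 * j) (-3 / 4) * (-(ys j : ℂ)) + 1)
        (-3 / 4 : ℂ) := by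
      rw [e1]
      have := (ih.fun_pow 2).fun_add (hasDerivAt_id' (-3 / 4 : ℂ))
      refine this.congr_deriv ?_
      norm_num
    have h2 : HasDerivAt (P (2 * (j + 1)))
        (2 * P (2 * j + 1) (-3 / 4) * (2 * P (2 * j) (-3 / 4) * (-(ys j : ℂ)) + 1) + 1)
        (-3 / 4 : ℂ) := by
      rw [e2]
      have := (h1.fun_pow 2).fun_add (hasDerivAt_id' (-3 / 4 : ℂ))
      refine this.congr_deriv ?_
      norm_num
    convert h2 using 1
    rw [P_odd, P_even]
    simp only [ys]
    push_cast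
    ring

lemma ys_nonneg (j : ℕ) : 0 ≤ ys j := by
  induction j with
  | zero => simp [ys]
  | succ j ih =>
    obtain ⟨h0, h1⟩ := xs_bounds j
    simp only [ys]
    have ha : 0 ≤ 1 - 6 * xs j ^ 2 + 4 * xs j ^ 3 := by
      have : 1 - 6 * xs j ^ 2 + 4 * xs j ^ 3 = (1 - 2 * xs j) * (1 + 2 * xs j - 2 * xs j ^ 2) := by
        ring
      rw [this]
      apply mul_nonneg (by linarith)
      nlinarith
    have hb : 0 ≤ xs j - xs j ^ 2 := by nlinarith
    have := mul_nonneg ha ih
    linarith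

lemma ys_unbounded (C : ℝ) : ∃ j, C < ys j := by
  by_contra hcon
  push Not at hcon
  have hC : 0 ≤ C := (ys_nonneg 0).trans (hcon 0)
  -- eventually xs j ≤ 1 / (12 (C + 1))
  have hev : ∀ᶠ j in atTop, xs j < 1 / (12 * (C + 1)) :=
    xs_tendsto.eventually_lt_const (by positivity)
  obtain ⟨J, hJ⟩ := eventually_atTop.1 hev
  have key : ∀ j, J ≤ j → ys j + 1 / (2 * ((j : ℝ) + 4)) ≤ ys (j + 1) := by
    intro j hj
    obtain ⟨h0, h1⟩ := xs_bounds j
    have hx := hJ j hj
    have hy0 := ys_nonneg j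
    have hyC := hcon j
    have hx2 : xs j * (12 * (C + 1)) < 1 := by
      rw [lt_div_iff₀ (by positivity)] at hx; exact hx
    have hge := xs_ge j
    have e : ys (j + 1) = ys j + (2 * (xs j - xs j ^ 2) - (6 * xs j ^ 2 - 4 * xs j ^ 3) * ys j) := by
      simp only [ys]; ring
    rw [e]
    have h5 : (6 * xs j ^ 2 - 4 * xs j ^ 3) * ys j ≤ 6 * xs j ^ 2 * C := by
      have : (6 * xs j ^ 2 - 4 * xs j ^ 3) * ys j ≤ 6 * xs j ^ 2 * ys j := by
        have : 0 ≤ 4 * xs j ^ 3 * ys j := by positivity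
        nlinarith
      have h6 : 6 * xs j ^ 2 * ys j ≤ 6 * xs j ^ 2 * C := by
        apply mul_le_mul_of_nonneg_left hyC (by positivity)
      linarith
    have h7 : 6 * xs j ^ 2 * C ≤ xs j / 2 := by
      have : xs j * (xs j * (12 * (C + 1))) ≤ xs j * 1 := by
        apply mul_le_mul_of_nonneg_left hx2.le h0.le
      nlinarith [sq_nonneg (xs j)]
    have h8 : xs j ≤ 2 * (xs j - xs j ^ 2) := by nlinarith
    have h9 : 1 / (2 * ((j : ℝ) + 4)) = (1 / ((j : ℝ) + 4)) / 2 := by
      field_simp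
    rw [h9]
    linarith
  -- sum of harmonic series diverges
  have hsum : ∀ n, ys J + ∑ i ∈ Finset.range n, 1 / (2 * (((J + i : ℕ) : ℝ) + 4)) ≤ ys (J + n) := by
    intro n
    induction n with
    | zero => simp
    | succ n ih =>
      rw [Finset.sum_range_succ]
      have := key (J + n) (Nat.le_add_right _ _)
      have e : J + (n + 1) = J + n + 1 := by ring
      rw [e]
      linarith
  have hbound : ∀ n, ∑ i ∈ Finset.range n, 1 / (2 * (((J + i : ℕ) : ℝ) + 4)) ≤ C := by
    intro n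
    have h1 := hsum n
    have h2 := hcon (J + n)
    have h3 := ys_nonneg J
    linarith
  have hsummable : Summable fun i : ℕ => 1 / (2 * (((J + i : ℕ) : ℝ) + 4)) :=
    summable_of_sum_range_le (fun i => by positivity) hbound
  have hs2 : Summable fun i : ℕ => 1 / ((i + (J + 4) : ℕ) : ℝ) := by
    refine (hsummable.mul_left 2).congr fun i => ?_
    push_cast
    field_simp
    ring
  have hs3 : Summable fun i : ℕ => 1 / (i : ℝ) := (summable_nat_add_iff (J + 4)).1 hs2
  exact Real.not_summable_one_div_natCast hs3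

/-- `-3/4` is in the closure of the complement of the Mandelbrot set. -/
theorem mem_closure_compl : (-3 / 4 : ℂ) ∈ closure Mᶜ := by
  by_contra hcon
  rw [closure_compl, mem_compl_iff, not_not, mem_interior_iff_mem_nhds,
    Metric.nhds_basis_closedBall.mem_iff] at hcon
  obtain ⟨r, hr, hrM⟩ := hcon
  obtain ⟨j, hj⟩ := ys_unbounded (2 / r)
  have h1 : ‖deriv (P (2 * j)) (-3 / 4 : ℂ)‖ ≤ 2 / r := by
    apply Complex.norm_deriv_le_of_forall_mem_sphere_norm_le hr
    · exact (differentiable_P _).diffContOnCl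
    · intro z hz
      exact (mem_M_iff_le z).1 (hrM (sphere_subset_closedBall hz)) _
  rw [(hasDerivAt_P_even j).deriv, norm_neg, Complex.norm_real, Real.norm_eq_abs] at h1
  have := le_abs_self (ys j)
  linarith

lemma mem_M : (-3 / 4 : ℂ) ∈ M := by
  rw [mem_M_iff_le]
  intro n
  exact (norm_P_le_one n).trans (by norm_num)

end Pool.Agent.Work.MP_c6f924_an_laurent
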