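import Pool.Agent.Work.MP_c6f924_an_laurent.Slow

set_option autoImplicit false

/-!
For parameters at distance `d` from `-3/4` the critical orbit stays bounded for `c0 / d` steps.
-/

namespace Pool.Agent.Work.MP_c6f924_an_laurent

open Pool.Agent.Work.MP_c6f924_an
open Set Filter Metric Topology Bornology

/-- the two-step multiplier is `1 - X` -/
noncomputable def X (v ε : ℂ) : ℂ :=
  2 * v ^ 2 - v ^ 3 + (2 * ε - ε ^ 2 + ε * (1 - ε) * v - 2 * ε * v ^ 2)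

lemma X_spec (v ε : ℂ) :
    (v * (v + (-1 + ε))) * (v * (v + (-1 + ε)) + (-1 + ε)) = v * (1 - X v ε) := by
  simp only [X]; ring

lemma norm_E_le {v ε : ℂ} (hv : ‖v‖ ≤ 1 / 10) (hε : ‖ε‖ ≤ 1 / 100) :
    ‖2 * ε - ε ^ 2 + ε * (1 - ε) * v - 2 * ε * v ^ 2‖ ≤ 3 * ‖ε‖ := by
  have e : 2 * ε - ε ^ 2 + ε * (1 - ε) * v - 2 * ε * v ^ 2
      = ε * (2 + (-ε + (1 - ε) * v - 2 * v ^ 2)) := by ring
  rw [e, norm_mul, mul_comm]
  apply mul_le_mul_of_nonneg_right _ (norm_nonneg _)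
  have h1 : ‖-ε + (1 - ε) * v - 2 * v ^ 2‖ ≤ ‖ε‖ + (1 + ‖ε‖) * ‖v‖ + 2 * ‖v‖ ^ 2 := by
    refine (norm_sub_le _ _).trans ?_
    refine add_le_add ((norm_add_le _ _).trans ?_) ?_
    · rw [norm_neg, norm_mul]
      refine add_le_add le_rfl (mul_le_mul_of_nonneg_right ?_ (norm_nonneg _))
      refine (norm_sub_le _ _).trans ?_
      simp
    · rw [norm_mul, norm_pow]; simp
  have h2 : ‖(2 : ℂ) + (-ε + (1 - ε) * v - 2 * v ^ 2)‖ ≤ 2 + ‖-ε + (1 - ε) * v - 2 * v ^ 2‖ := by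
    refine (norm_add_le _ _).trans ?_
    simp
  have h3 := norm_nonneg v
  have h4 := norm_nonneg ε
  have h5 : (1 + ‖ε‖) * ‖v‖ ≤ (1 + 1 / 100) * (1 / 10) := by
    apply mul_le_mul _ hv h3 (by norm_num)
    linarith
  have h6 : ‖v‖ ^ 2 ≤ (1 / 10) ^ 2 := pow_le_pow_left₀ h3 hv 2
  linarith

lemma norm_X_le {v ε : ℂ} (hv : ‖v‖ ≤ 1 / 10) (hε : ‖ε‖ ≤ ‖v‖ ^ 2 / 100) :
    ‖X v ε‖ ≤ 2.13 * ‖v‖ ^ 2 := by
  have h3 := norm_nonneg v
  have h6 : ‖v‖ ^ 2 ≤ (1 / 10) ^ 2 := pow_le_pow_left₀ h3 hv 2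
  have hE := norm_E_le hv (hε.trans (by linarith))
  have h1 : ‖2 * v ^ 2 - v ^ 3‖ ≤ 2 * ‖v‖ ^ 2 + ‖v‖ ^ 3 := by
    refine (norm_sub_le _ _).trans ?_
    rw [norm_mul, norm_pow, norm_pow]; simp
  have h2 : ‖v‖ ^ 3 ≤ ‖v‖ ^ 2 / 10 := by
    have : ‖v‖ ^ 3 = ‖v‖ ^ 2 * ‖v‖ := by ring
    rw [this]
    have := mul_le_mul_of_nonneg_left hv (sq_nonneg ‖v‖)
    linarith
  have h7 : ‖X v ε‖ ≤ (2 * ‖v‖ ^ 2 + ‖v‖ ^ 3) + 3 * ‖ε‖ :=
    (norm_add_le _ _).trans (add_le_add h1 hE)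
  linarith

lemma step_est {v ε : ℂ} (hv0 : v ≠ 0) (hv : ‖v‖ ≤ 1 / 10) (hε : ‖ε‖ ≤ ‖v‖ ^ 2 / 100) :
    v * (1 - X v ε) ≠ 0 ∧ ‖1 / (v * (1 - X v ε)) ^ 2 - 1 / v ^ 2 - 4‖ ≤ 1 / 2 := by
  have h3 := norm_nonneg v
  have h3' : 0 < ‖v‖ := norm_pos_iff.2 hv0
  have h6 : ‖v‖ ^ 2 ≤ (1 / 10) ^ 2 := pow_le_pow_left₀ h3 hv 2
  have hX := norm_X_le hv hε
  have hE := norm_E_le hv (hε.trans (by linarith))
  set E : ℂ := 2 * ε - ε ^ 2 + ε * (1 - ε) * v - 2 * ε * v ^ 2 with hEdef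
  set x : ℂ := X v ε with hx
  have hx1 : ‖x‖ ≤ 0.0213 := by linarith
  have h1x : 0.97 ≤ ‖1 - x‖ := by
    have := norm_sub_norm_le (1 : ℂ) x
    rw [norm_one] at this
    linarith
  have h1x0 : 1 - x ≠ 0 := by
    intro h
    rw [h, norm_zero] at h1x
    linarith
  refine ⟨mul_ne_zero hv0 h1x0, ?_⟩
  have hxe : x = 2 * v ^ 2 - v ^ 3 + E := rfl
  have key : 1 / (v * (1 - x)) ^ 2 - 1 / v ^ 2 - 4
      = -2 * v + 2 * E / v ^ 2 + x ^ 2 / v ^ 2 * ((3 - 2 * x) / (1 - x) ^ 2) := by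
    have a1 : 1 / (v * (1 - x)) ^ 2 - 1 / v ^ 2
        = 2 * x / v ^ 2 + x ^ 2 / v ^ 2 * ((3 - 2 * x) / (1 - x) ^ 2) := by
      field_simp
      ring
    rw [a1]
    have a2 : 2 * x / v ^ 2 = 4 - 2 * v + 2 * E / v ^ 2 := by
      rw [hxe]
      field_simp
      ring
    rw [a2]; ring
  rw [key]
  have b1 : ‖-2 * v‖ ≤ 0.2 := by
    rw [norm_mul]; norm_num; linarith
  have b2 : ‖2 * E / v ^ 2‖ ≤ 0.06 := by
    rw [norm_div, norm_mul, norm_pow, div_le_iff₀ (by positivity)]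
    norm_num
    linarith
  have b3 : ‖x ^ 2 / v ^ 2‖ ≤ 0.0455 := by
    rw [norm_div, norm_pow, norm_pow, div_le_iff₀ (by positivity)]
    have : ‖x‖ ^ 2 ≤ (2.13 * ‖v‖ ^ 2) ^ 2 := pow_le_pow_left₀ (norm_nonneg _) hX 2
    have h8 : (2.13 * ‖v‖ ^ 2) ^ 2 = 4.5369 * ‖v‖ ^ 2 * ‖v‖ ^ 2 := by ring
    rw [h8] at this
    have h9 : 4.5369 * ‖v‖ ^ 2 * ‖v‖ ^ 2 ≤ 4.5369 * (1 / 10) ^ 2 * ‖v‖ ^ 2 := by gcongr
    have h10 : 0 ≤ ‖v‖ ^ 2 := by positivity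
    linarith
  have b4 : ‖(3 - 2 * x) / (1 - x) ^ 2‖ ≤ 3.3 := by
    rw [norm_div, norm_pow, div_le_iff₀ (by positivity)]
    have h11 : ‖3 - 2 * x‖ ≤ 3.05 := by
      refine (norm_sub_le _ _).trans ?_
      rw [norm_mul]; norm_num; linarith
    have h12 : (0.97 : ℝ) ^ 2 ≤ ‖1 - x‖ ^ 2 := pow_le_pow_left₀ (by norm_num) h1x 2
    linarith
  have b5 : ‖x ^ 2 / v ^ 2 * ((3 - 2 * x) / (1 - x) ^ 2)‖ ≤ 0.16 := by
    rw [norm_mul]
    refine (mul_le_mul b3 b4 (norm_nonneg _) (by norm_num)).trans (by norm_num)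
  calc _ ≤ ‖-2 * v‖ + ‖2 * E / v ^ 2‖ + ‖x ^ 2 / v ^ 2 * ((3 - 2 * x) / (1 - x) ^ 2)‖ :=
        norm_add₃_le
    _ ≤ 1 / 2 := by linarith

lemma norm_le_of_re {v : ℂ} {a : ℝ} (ha : 100 ≤ a) (h : a ≤ (1 / v ^ 2).re) :
    v ≠ 0 ∧ ‖v‖ ≤ 1 / 10 ∧ ‖v‖ ^ 2 * ‖1 / v ^ 2‖ = 1 := by
  have hv0 : v ≠ 0 := by
    rintro rfl
    simp at h
    linarith
  have h3' : 0 < ‖v‖ := norm_pos_iff.2 hv0
  have e : ‖1 / v ^ 2‖ = 1 / ‖v‖ ^ 2 := by rw [norm_div, norm_pow, norm_one]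
  have h1 : 100 ≤ ‖1 / v ^ 2‖ := (ha.trans h).trans (Complex.re_le_norm _)
  refine ⟨hv0, ?_, ?_⟩
  · rw [e, le_div_iff₀ (by positivity)] at h1
    nlinarith
  · rw [e]; field_simp

lemma iterate_bound {v : ℕ → ℂ} {ε : ℂ} {A : ℝ} {K : ℕ}
    (hstep : ∀ k, v (k + 1) = v k * (1 - X (v k) ε)) (h0 : 100 ≤ (1 / v 0 ^ 2).re)
    (hA : ‖1 / v 0 ^ 2‖ ≤ A) (hK : ‖ε‖ * (A + 5 * K) ≤ 1 / 100) :
    ∀ k ≤ K, 100 + 3 * (k : ℝ) ≤ (1 / v k ^ 2).re ∧ ‖1 / v k ^ 2‖ ≤ A + 5 * k := by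
  intro k
  induction k with
  | zero => intro _; simp; exact ⟨by simpa using h0, by simpa using hA⟩
  | succ k ih =>
    intro hk
    obtain ⟨h1, h2⟩ := ih (by omega)
    have hk0 : (0 : ℝ) ≤ k := Nat.cast_nonneg k
    obtain ⟨hv0, hv, hvv⟩ := norm_le_of_re (a := 100 + 3 * (k : ℝ)) (by linarith) h1
    have hε : ‖ε‖ ≤ ‖v k‖ ^ 2 / 100 := by
      have hkK : (k : ℝ) ≤ K := by exact_mod_cast (by omega : k ≤ K)
      have h3 : ‖ε‖ * ‖1 / v k ^ 2‖ ≤ 1 / 100 := by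
        refine le_trans (mul_le_mul_of_nonneg_left ?_ (norm_nonneg _)) hK
        linarith
      have h4 : ‖ε‖ = ‖v k‖ ^ 2 * (‖ε‖ * ‖1 / v k ^ 2‖) := by
        calc ‖ε‖ = ‖ε‖ * 1 := (mul_one _).symm
          _ = ‖ε‖ * (‖v k‖ ^ 2 * ‖1 / v k ^ 2‖) := by rw [hvv]
          _ = _ := by ring
      rw [h4]
      have := mul_le_mul_of_nonneg_left h3 (sq_nonneg ‖v k‖)
      linarith
    obtain ⟨-, hs⟩ := step_est hv0 hv hε
    rw [← hstep k] at hs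
    set D : ℂ := 1 / v (k + 1) ^ 2 - 1 / v k ^ 2 - 4 with hD
    have e : 1 / v (k + 1) ^ 2 = 1 / v k ^ 2 + (4 + D) := by rw [hD]; ring
    constructor
    · rw [e, Complex.add_re, Complex.add_re]
      have h5 : |D.re| ≤ 1 / 2 := (Complex.abs_re_le_norm D).trans hs
      have h6 := (abs_le.1 h5).1
      have h7 : (4 : ℂ).re = 4 := rfl
      rw [h7]
      push_cast
      linarith
    · rw [e]
      have h5 := norm_add_le (1 / v k ^ 2) (4 + D)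
      have h6 := norm_add_le (4 : ℂ) D
      have h7 : ‖(4 : ℂ)‖ = 4 := by norm_num
      push_cast
      linarith

/-- Slow escape near `-3/4`. -/
theorem slow : ∃ c₀ : ℝ, 0 < c₀ ∧ ∃ δ₀ : ℝ, 0 < δ₀ ∧ ∀ c : ℂ, ‖c + 3 / 4‖ < δ₀ →
    ∀ n : ℕ, n * ‖c + 3 / 4‖ ≤ c₀ → ‖P n c‖ ≤ 2 := by
  -- choose an even time at which the unperturbed orbit is close to the parabolic point
  obtain ⟨j, hj⟩ := (xs_tendsto.eventually_lt_const (by norm_num : (0 : ℝ) < 1 / 11)).exists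
  obtain ⟨hx0, hx1⟩ := xs_bounds j
  set a : ℝ := xs j with ha
  set A : ℝ := 1 / a ^ 2 + 1 with hAdef
  have ha2 : 121 < 1 / a ^ 2 := by
    rw [lt_div_iff₀ (by positivity)]
    nlinarith
  have hA100 : 100 < A := by linarith
  -- the parameter `s` with `s ^ 2 = 1 - (c + 3/4)`
  set s : ℂ → ℂ := fun c => (1 - (c + 3 / 4)) ^ ((1 : ℂ) / 2) with hs
  have hs_cont : ContinuousAt s (-3 / 4 : ℂ) := by
    have : ContinuousAt (fun c : ℂ => 1 - (c + 3 / 4)) (-3 / 4) := by fun_prop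
    apply this.cpow continuousAt_const
    norm_num
  have hs1 : s (-3 / 4) = 1 := by simp only [hs]; norm_num
  have hs_sq : ∀ c, s c ^ 2 = 1 - (c + 3 / 4) := by
    intro c
    simp only [hs]
    rw [← Complex.cpow_nat_mul]
    norm_num
  -- base point at time `2 j`
  set v0 : ℂ → ℂ := fun c => P (2 * j) c + 1 / 2 - (1 - s c) with hv0
  have hv0_cont : ContinuousAt v0 (-3 / 4 : ℂ) := by
    have := (continuous_P (2 * j)).continuousAt (x := (-3 / 4 : ℂ))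
    exact (this.add continuousAt_const).sub (continuousAt_const.sub hs_cont)
  have hv0_val : v0 (-3 / 4) = (a : ℂ) := by
    simp only [hv0]
    rw [hs1, P_even]
    ring
  have ha0 : (a : ℂ) ≠ 0 := by exact_mod_cast hx0.ne'
  have hw_cont : ContinuousAt (fun c => 1 / v0 c ^ 2) (-3 / 4 : ℂ) := by
    apply continuousAt_const.div (hv0_cont.pow 2)
    change v0 (-3 / 4) ^ 2 ≠ 0
    rw [hv0_val]
    exact pow_ne_zero 2 ha0
  have ev1 : ∀ᶠ c in 𝓝 (-3 / 4 : ℂ), ‖1 / v0 c ^ 2 - 1 / (a : ℂ) ^ 2‖ < 1 := by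
    have := Metric.tendsto_nhds.1 hw_cont 1 one_pos
    refine this.mono fun c hc => ?_
    rw [dist_eq_norm] at hc
    beta_reduce at hc
    rwa [hv0_val] at hc
  have ev2 : ∀ᶠ c in 𝓝 (-3 / 4 : ℂ), ‖s c - 1‖ < 1 / 10 := by
    have := Metric.tendsto_nhds.1 hs_cont (1 / 10) (by norm_num)
    refine this.mono fun c hc => ?_
    rw [dist_eq_norm] at hc
    rwa [hs1] at hc
  have ev3 : ∀ᶠ c in 𝓝 (-3 / 4 : ℂ), ∀ n ∈ Finset.range (2 * j + 1), ‖P n c‖ < 2 := by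
    rw [Filter.eventually_all_finset]
    intro n _
    have h1 : ContinuousAt (fun c => ‖P n c‖) (-3 / 4 : ℂ) := (continuous_P n).norm.continuousAt
    exact h1.eventually_lt_const ((norm_P_le_one n).trans_lt (by norm_num))
  have ev4 : ∀ᶠ c in 𝓝 (-3 / 4 : ℂ), ‖c + 3 / 4‖ < 1 / (400 * A) := by
    have h1 : ContinuousAt (fun c : ℂ => ‖c + 3 / 4‖) (-3 / 4 : ℂ) := by fun_prop
    apply h1.eventually_lt_const
    norm_num
    positivity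
  obtain ⟨δ₀, hδ₀, hball⟩ := Metric.eventually_nhds_iff.1 (ev1.and (ev2.and (ev3.and ev4)))
  refine ⟨1 / 2000, by norm_num, δ₀, hδ₀, fun c hc n hn => ?_⟩
  have hdist : dist c (-3 / 4) < δ₀ := by
    rw [dist_eq_norm]
    have : c - -3 / 4 = c + 3 / 4 := by ring
    rwa [this]
  obtain ⟨e1, e2, e3, e4⟩ := hball hdist
  by_cases hnj : n < 2 * j + 1
  · exact (e3 n (Finset.mem_range.2 hnj)).le
  push Not at hnj
  -- coordinates
  set η : ℂ := c + 3 / 4 with hη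
  set α : ℂ := 1 - s c with hα
  set ε : ℂ := 2 * α with hε
  have hαη : α * (2 - α) = η := by
    have := hs_sq c
    rw [← hη] at this
    have h2 : α * (2 - α) = 1 - s c ^ 2 := by rw [hα]; ring
    rw [h2, this]; ring
  have hαn : ‖α‖ < 1 / 10 := by
    rw [hα, norm_sub_rev]; exact e2
  have hαle : ‖α‖ ≤ ‖η‖ := by
    rw [← hαη, norm_mul]
    have : 1 ≤ ‖2 - α‖ := by
      have := norm_sub_norm_le (2 : ℂ) α
      have h2 : ‖(2 : ℂ)‖ = 2 := by norm_num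
      rw [h2] at this
      linarith
    nlinarith [norm_nonneg α]
  have hεle : ‖ε‖ ≤ 2 * ‖η‖ := by
    rw [hε, norm_mul]
    have h2 : ‖(2 : ℂ)‖ = 2 := by norm_num
    rw [h2]; linarith
  -- one step in the coordinate `v = P + 1/2 - α`
  have step1 : ∀ k, P (k + 1) c + 1 / 2 - α
      = (P k c + 1 / 2 - α) * ((P k c + 1 / 2 - α) + (-1 + ε)) := by
    intro k
    rw [P_succ]
    have hc' : c = α * (2 - α) - 3 / 4 := by rw [hαη, hη]; ring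
    rw [hε]
    calc P k c ^ 2 + c + 1 / 2 - α = P k c ^ 2 + (α * (2 - α) - 3 / 4) + 1 / 2 - α := by rw [← hc']
      _ = _ := by ring
  set v : ℕ → ℂ := fun k => P (2 * j + 2 * k) c + 1 / 2 - α with hv
  have hstep : ∀ k, v (k + 1) = v k * (1 - X (v k) ε) := by
    intro k
    have : 2 * j + 2 * (k + 1) = 2 * j + 2 * k + 1 + 1 := by ring
    simp only [hv]
    rw [this, step1, step1, X_spec]
  have hv00 : v 0 = v0 c := by simp [hv, hv0, hα]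
  have hre : 100 ≤ (1 / v 0 ^ 2).re := by
    rw [hv00]
    have h1 : |(1 / v0 c ^ 2 - 1 / (a : ℂ) ^ 2).re| < 1 :=
      (Complex.abs_re_le_norm _).trans_lt e1
    have h2 : (1 / (a : ℂ) ^ 2).re = 1 / a ^ 2 := by
      have : (1 / (a : ℂ) ^ 2) = ((1 / a ^ 2 : ℝ) : ℂ) := by push_cast; ring
      rw [this, Complex.ofReal_re]
    rw [Complex.sub_re, h2] at h1
    have := (abs_lt.1 h1).1
    linarith
  have hAv : ‖1 / v 0 ^ 2‖ ≤ A := by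
    rw [hv00]
    have h2 : ‖1 / (a : ℂ) ^ 2‖ = 1 / a ^ 2 := by
      rw [norm_div, norm_pow, norm_one, Complex.norm_real, Real.norm_eq_abs, abs_of_pos hx0]
    have h3 := norm_sub_norm_le (1 / v0 c ^ 2) (1 / (a : ℂ) ^ 2)
    rw [h2] at h3
    linarith
  -- the number of double steps
  obtain ⟨K, hKn⟩ : ∃ K, n = 2 * j + 2 * K ∨ n = 2 * j + 2 * K + 1 := by
    refine ⟨(n - 2 * j) / 2, ?_⟩
    omega
  have hKle : 2 * (K : ℝ) ≤ n := by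
    have : 2 * K ≤ n := by omega
    exact_mod_cast this
  have hηn := norm_nonneg η
  have hKε : ‖ε‖ * (A + 5 * K) ≤ 1 / 100 := by
    have h1 : ‖ε‖ * A ≤ 1 / 200 := by
      have : ‖η‖ * (400 * A) < 1 := by
        rw [lt_div_iff₀ (by positivity)] at e4; exact e4
      have h2 : ‖ε‖ * A ≤ 2 * ‖η‖ * A := by
        apply mul_le_mul_of_nonneg_right hεle; linarith
      linarith
    have h2 : ‖ε‖ * (5 * K) ≤ 1 / 200 := by
      have h3 : ‖ε‖ * (5 * K) ≤ 2 * ‖η‖ * (5 * K) := by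
        apply mul_le_mul_of_nonneg_right hεle; positivity
      have h4 : 2 * (K : ℝ) * ‖η‖ ≤ n * ‖η‖ := mul_le_mul_of_nonneg_right hKle hηn
      linarith
    linarith
  have hmain := iterate_bound hstep hre hAv hKε K le_rfl
  have hK0 : (0 : ℝ) ≤ K := Nat.cast_nonneg K
  obtain ⟨-, hvK, -⟩ := norm_le_of_re (a := 100 + 3 * (K : ℝ)) (by linarith) hmain.1
  have hεs : ‖ε‖ ≤ 1 / 100 := by
    have : ‖ε‖ * 1 ≤ ‖ε‖ * (A + 5 * K) := by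
      apply mul_le_mul_of_nonneg_left _ (norm_nonneg _)
      linarith
    linarith
  have bound : ∀ w : ℂ, ‖w + 1 / 2 - α‖ ≤ 1 → ‖w‖ ≤ 2 := by
    intro w hw
    have e : w = (w + 1 / 2 - α) - (1 / 2) + α := by ring
    rw [e]
    have h1 := norm_add_le ((w + 1 / 2 - α) - (1 / 2)) α
    have h2 := norm_sub_le (w + 1 / 2 - α) (1 / 2 : ℂ)
    have h3 : ‖(1 / 2 : ℂ)‖ = 1 / 2 := by norm_num
    linarith
  rcases hKn with rfl | rfl
  · apply bound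
    change ‖v K‖ ≤ 1
    linarith
  · apply bound
    rw [step1]
    change ‖v K * (v K + (-1 + ε))‖ ≤ 1
    rw [norm_mul]
    have h1 : ‖v K + (-1 + ε)‖ ≤ 2 := by
      have h1 := norm_add_le (v K) (-1 + ε)
      have h2 := norm_add_le (-1 : ℂ) ε
      have h3 : ‖(-1 : ℂ)‖ = 1 := by norm_num
      linarith
    have h2 := norm_nonneg (v K)
    nlinarith [norm_nonneg (v K + (-1 + ε))]

end Pool.Agent.Work.MP_c6f924_an_laurent
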