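import Pool.Agent.Work.MP_c6f924_an_laurent.Ext

set_option autoImplicit false

/-!
`‖ψ z + 3/4‖ ≥ κ / log (1 / (‖z‖ - 1))`.
-/

namespace Pool.Agent.Work.MP_c6f924_an_laurent

open Pool.Agent.Work.MP_c6f924_an
open Set Filter Metric Topology Bornology

theorem thmB : ∃ κ : ℝ, 0 < κ ∧ ∀ (ψ : ℂ → ℂ) (b : ℕ → ℂ), Laurent ψ b →
    (∀ z, 1 < ‖z‖ → ψ z ∉ M) → ∀ z : ℂ, 1 < ‖z‖ → ‖z‖ ≤ 3 / 2 →
    κ / Real.log (1 / (‖z‖ - 1)) ≤ ‖ψ z + 3 / 4‖ := by
  obtain ⟨c₀, hc₀, δ₀, hδ₀, hslow⟩ := slow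
  set δ₁ : ℝ := min δ₀ (min c₀ 1) with hδ₁
  have hδ₁0 : 0 < δ₁ := lt_min hδ₀ (lt_min hc₀ one_pos)
  have hl2 : 0 < Real.log 2 := Real.log_pos (by norm_num)
  refine ⟨min (δ₁ * Real.log 2) (c₀ * Real.log 2 / 5), lt_min (by positivity) (by positivity), ?_⟩
  intro ψ b h hmap z hz hz2
  set L : ℝ := Real.log (1 / (‖z‖ - 1)) with hL
  have hz1 : 0 < ‖z‖ - 1 := by linarith
  have hL2 : Real.log 2 ≤ L := by
    apply Real.log_le_log (by norm_num)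
    rw [le_div_iff₀ hz1]
    linarith
  have hL0 : 0 < L := hl2.trans_le hL2
  set d : ℝ := ‖ψ z + 3 / 4‖ with hd
  have hd0 : 0 < d := by
    rw [hd, norm_pos_iff]
    intro h0
    have : ψ z = -3 / 4 := by linear_combination h0
    exact hmap z hz (this ▸ mem_M)
  rw [div_le_iff₀ hL0]
  by_cases hdδ : δ₁ ≤ d
  · calc min (δ₁ * Real.log 2) (c₀ * Real.log 2 / 5) ≤ δ₁ * Real.log 2 := min_le_left _ _
      _ ≤ d * L := by gcongr
  · push Not at hdδ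
    have hdc : d < c₀ := hdδ.trans_le ((min_le_right _ _).trans (min_le_left _ _))
    have hd1 : d < 1 := hdδ.trans_le ((min_le_right _ _).trans (min_le_right _ _))
    have hdδ₀ : d < δ₀ := hdδ.trans_le (min_le_left _ _)
    -- number of iterates
    obtain ⟨n, hn⟩ : ∃ n : ℕ, n + 1 = ⌊c₀ / d⌋₊ := by
      have : 1 ≤ ⌊c₀ / d⌋₊ := by
        apply Nat.le_floor
        rw [Nat.cast_one, le_div_iff₀ hd0]
        linarith
      exact ⟨⌊c₀ / d⌋₊ - 1, by omega⟩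
    have hn1 : ((n : ℝ) + 1) * d ≤ c₀ := by
      have := Nat.floor_le (show 0 ≤ c₀ / d by positivity)
      rw [← hn, le_div_iff₀ hd0] at this
      exact_mod_cast this
    have hn2 : c₀ < ((n : ℝ) + 2) * d := by
      have := Nat.lt_floor_add_one (c₀ / d)
      rw [← hn, div_lt_iff₀ hd0] at this
      push_cast at this
      linarith
    have hP : ‖P (n + 1) (ψ z)‖ ≤ 2 := hslow (ψ z) hdδ₀ (n + 1) (by push_cast; exact hn1)
    have hψ2 : ‖ψ z‖ ≤ 2 := by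
      have := norm_sub_le (ψ z + 3 / 4) (3 / 4 : ℂ)
      rw [add_sub_cancel_right] at this
      have h34 : ‖(3 / 4 : ℂ)‖ = 3 / 4 := by norm_num
      rw [h34] at this
      linarith
    have h4 : ‖z‖ ^ 2 ^ n ≤ 4 := by
      have := pow_le_norm_P h hmap hz hψ2 n
      linarith
    -- log
    have hlog : (2 : ℝ) ^ n * Real.log ‖z‖ ≤ 2 * Real.log 2 := by
      have h5 := Real.log_le_log (by positivity) h4
      rw [Real.log_pow] at h5
      have h6 : Real.log 4 = 2 * Real.log 2 := by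
        rw [show (4 : ℝ) = 2 ^ 2 by norm_num, Real.log_pow]
        norm_num
      rw [h6] at h5
      exact_mod_cast h5
    have hlz : (2 / 3) * (‖z‖ - 1) ≤ Real.log ‖z‖ := by
      have h7 := Real.one_sub_inv_le_log_of_pos (show 0 < ‖z‖ by linarith)
      refine le_trans ?_ h7
      have : 1 - ‖z‖⁻¹ = (‖z‖ - 1) * ‖z‖⁻¹ := by
        field_simp
      rw [this, mul_comm]
      apply mul_le_mul_of_nonneg_left _ hz1.le
      rw [show (2 / 3 : ℝ) = (3 / 2)⁻¹ by norm_num]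
      exact inv_anti₀ (by linarith) hz2
    have hl2' : Real.log 2 ≤ 1 := by
      have := Real.log_le_sub_one_of_pos (show (0 : ℝ) < 2 by norm_num)
      linarith
    have h8 : (2 : ℝ) ^ n ≤ 4 * (1 / (‖z‖ - 1)) := by
      rw [mul_one_div, le_div_iff₀ hz1]
      have h2n : (0 : ℝ) < 2 ^ n := by positivity
      have : (2 : ℝ) ^ n * ((2 / 3) * (‖z‖ - 1)) ≤ 2 * Real.log 2 :=
        (mul_le_mul_of_nonneg_left hlz h2n.le).trans hlog
      nlinarith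
    have h9 : (n : ℝ) * Real.log 2 ≤ 2 * Real.log 2 + L := by
      have h10 := Real.log_le_log (by positivity) h8
      rw [Real.log_pow, Real.log_mul (by norm_num) (by positivity)] at h10
      have h6 : Real.log 4 = 2 * Real.log 2 := by
        rw [show (4 : ℝ) = 2 ^ 2 by norm_num, Real.log_pow]
        norm_num
      rw [h6] at h10
      exact h10
    have h11 : ((n : ℝ) + 2) * Real.log 2 ≤ 5 * L := by nlinarith
    calc min (δ₁ * Real.log 2) (c₀ * Real.log 2 / 5) ≤ c₀ * Real.log 2 / 5 := min_le_right _ _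
      _ ≤ (((n : ℝ) + 2) * d) * Real.log 2 / 5 := by gcongr
      _ = d * (((n : ℝ) + 2) * Real.log 2) / 5 := by ring
      _ ≤ d * (5 * L) / 5 := by gcongr
      _ = d * L := by ring

lemma norm_F_le {ψ : ℂ → ℂ} {b : ℕ → ℂ} (h : Laurent ψ b) :
    ∃ C : ℝ, 0 ≤ C ∧ ∀ z : ℂ, 2 ≤ ‖z‖ → ‖F b z⁻¹‖ ≤ C := by
  have hs := summable_norm_mul h (r := 1 / 2) (by norm_num) (by norm_num)
  refine ⟨∑' m, ‖b m‖ * (1 / 2 : ℝ) ^ m, tsum_nonneg fun m => by positivity, fun z hz => ?_⟩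
  apply tsum_of_norm_bounded hs.hasSum
  intro m
  rw [norm_mul, norm_pow, norm_inv]
  have : ‖z‖⁻¹ ≤ 1 / 2 := by
    rw [one_div]; exact inv_anti₀ (by norm_num) hz
  gcongr

theorem exists_boundary {ψ Ψ : ℂ → ℂ} {b : ℕ → ℂ} (h : Laurent ψ b)
    (hmap : ∀ z, 1 < ‖z‖ → ψ z ∉ M) (hsurj : Mᶜ ⊆ ψ '' {z | 1 < ‖z‖})
    (hΨ : ContinuousOn Ψ {z | 1 ≤ ‖z‖}) (heq : ∀ z, 1 < ‖z‖ → Ψ z = ψ z) :
    ∃ z : ℂ, ‖z‖ = 1 ∧ Ψ z = -3 / 4 := by
  obtain ⟨C, hC0, hC⟩ := norm_F_le h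
  set K : Set ℂ := {z | 1 ≤ ‖z‖} ∩ closedBall 0 (C + 2) with hK
  have hKc : IsCompact K := by
    apply (isCompact_closedBall (0 : ℂ) (C + 2)).inter_left
    exact isClosed_le continuous_const continuous_norm
  have hIm : IsClosed (Ψ '' K) := (hKc.image_of_continuousOn (hΨ.mono inter_subset_left)).isClosed
  have hsub : Mᶜ ∩ ball 0 2 ⊆ Ψ '' K := by
    rintro c ⟨hc, hc2⟩
    obtain ⟨z, hz, rfl⟩ := hsurj hc
    rw [mem_ball_zero_iff] at hc2
    have hz' : 1 < ‖z‖ := hz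
    refine ⟨z, ⟨hz'.le, ?_⟩, heq z hz'⟩
    rw [mem_closedBall_zero_iff]
    by_contra hcon
    push Not at hcon
    have h1 := hC z (by linarith)
    rw [psi_eq h hz'] at hc2
    have h2 := norm_sub_norm_le z (-F b z⁻¹)
    rw [norm_neg, sub_neg_eq_add] at h2
    linarith
  have hmem : (-3 / 4 : ℂ) ∈ closure (Mᶜ ∩ ball 0 2) := by
    have h1 := mem_closure_compl
    have h2 : ball (0 : ℂ) 2 ∈ 𝓝 (-3 / 4 : ℂ) := by
      apply isOpen_ball.mem_nhds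
      rw [mem_ball_zero_iff]
      norm_num
    rw [mem_closure_iff_nhds] at h1 ⊢
    intro t ht
    obtain ⟨x, hx⟩ := h1 (t ∩ ball 0 2) (inter_mem ht h2)
    exact ⟨x, hx.1.1, hx.2, hx.1.2⟩
  have hin : (-3 / 4 : ℂ) ∈ Ψ '' K := closure_minimal hsub hIm hmem
  obtain ⟨z, hz, hzΨ⟩ := hin
  have hz1 : 1 ≤ ‖z‖ := hz.1
  refine ⟨z, ?_, hzΨ⟩
  by_contra hne
  have hlt : 1 < ‖z‖ := lt_of_le_of_ne hz1 (Ne.symm hne)
  rw [heq z hlt] at hzΨ
  exact hmap z hlt (hzΨ ▸ mem_M)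

end Pool.Agent.Work.MP_c6f924_an_laurent
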